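import Mathlib

/-!
# AG-12: from the count to the growth function

`exists_k`: `(4 k²)^α ≤ k` iff `4^α ≤ k^(1-2α)`, true for large `k` since `1 - 2α > 0`.

`growth`: put `n_j = k^j * (2 * ((4*k)^j * l)) = 2 l (4k²)^j`. Given `n ≥ 1`.
If `n < n_0 = 2 l` use `f n ≥ f 1 ≥ 2` and `c (2l)^α ≤ log 2`. Otherwise let `j` be maximal with
`n_j ≤ n` (`n < n_{j+1}`); `n^α ≤ (2l)^α ((4k²)^α)^(j+1) ≤ (2l)^α k^(j+1)`.
`log (f n) ≥ log (f n_j) ≥ (k^j / a) log 2` with natural division; `k^j / a ≥ k^j / (2a)` (real)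
when `k^j ≥ a`; if `k^j < a` use again `f n ≥ 2` and `n^α ≤ (2l)^α k a`. So
`c = min (log 2 / ((2l)^α * k * a)) (log 2 / (2 * a * k * (2l)^α))` works (the second is smaller
up to a factor: take `c = log 2 / (2 * a * k * (2l)^α)`). For `n = 0`: `0^α = 0`, `exp 0 = 1 ≤ f 0`.
-/

set_option autoImplicit false

namespace Pool.Agent.Helper34.AG

theorem exists_k (α : ℝ) (h0 : 0 < α) (h1 : α < 1 / 2) :
    ∃ m : ℕ, (4 * ((m + 2 : ℕ) : ℝ) ^ 2) ^ α ≤ ((m + 2 : ℕ) : ℝ) := by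
  have hpos : 0 < 1 - 2 * α := by linarith
  have ht := (tendsto_rpow_atTop hpos).comp (tendsto_natCast_atTop_atTop (R := ℝ))
  obtain ⟨N, hN⟩ := (ht.eventually_ge_atTop ((4 : ℝ) ^ α)).exists_forall_of_atTop
  refine ⟨N, ?_⟩
  have hk : (0 : ℝ) < ((N + 2 : ℕ) : ℝ) := by positivity
  have h := hN (N + 2) (by omega)
  simp only [Function.comp] at h
  set k : ℝ := ((N + 2 : ℕ) : ℝ) with hkdef
  rw [Real.mul_rpow (by norm_num) (by positivity), ← Real.rpow_natCast k 2,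
    ← Real.rpow_mul hk.le]
  calc (4 : ℝ) ^ α * k ^ (((2 : ℕ) : ℝ) * α) ≤ k ^ (1 - 2 * α) * k ^ (((2 : ℕ) : ℝ) * α) := by
        gcongr
    _ = k := by
        rw [← Real.rpow_add hk]
        norm_num

theorem growth (f : ℕ → ℕ) (hf : Monotone f) (h0 : 1 ≤ f 0) (h1 : 2 ≤ f 1) (k a l : ℕ)
    (hk : 2 ≤ k) (ha : 1 ≤ a) (hl : 1 ≤ l) (α : ℝ) (hα : 0 < α)
    (hkα : (4 * (k : ℝ) ^ 2) ^ α ≤ (k : ℝ))
    (H : ∀ j : ℕ, 2 ^ (k ^ j / a) ≤ f (k ^ j * (2 * ((4 * k) ^ j * l)))) :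
    ∃ c : ℝ, 0 < c ∧ ∀ n : ℕ, Real.exp (c * (n : ℝ) ^ α) ≤ (f n : ℝ) := by
  have hk0 : (0 : ℝ) < k := by positivity
  have hk1 : (1 : ℝ) ≤ k := by exact_mod_cast (by omega : 1 ≤ k)
  have ha0 : (0 : ℝ) < a := by exact_mod_cast (by omega : 0 < a)
  have ha1 : (1 : ℝ) ≤ a := by exact_mod_cast ha
  have hl0 : (0 : ℝ) < l := by exact_mod_cast (by omega : 0 < l)
  have hlog : 0 < Real.log 2 := Real.log_pos (by norm_num)
  set B : ℝ := (2 * (l : ℝ)) ^ α with hB
  have hB0 : 0 < B := by positivity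
  set c : ℝ := Real.log 2 / (2 * a * k * B) with hc
  have hc0 : 0 < c := by positivity
  refine ⟨c, hc0, fun n => ?_⟩
  -- the scale
  have hscale : ∀ j : ℕ, ((k ^ j * (2 * ((4 * k) ^ j * l)) : ℕ) : ℝ) =
      2 * l * (4 * (k : ℝ) ^ 2) ^ j := by
    intro j
    push_cast
    rw [mul_pow 4 (k : ℝ), mul_pow 4 ((k : ℝ) ^ 2), ← pow_mul, mul_comm 2 j, pow_mul]
    ring
  have hpowα : ∀ j : ℕ, (2 * (l : ℝ) * (4 * (k : ℝ) ^ 2) ^ j) ^ α ≤ B * (k : ℝ) ^ j := by
    intro j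
    rw [Real.mul_rpow (by positivity) (by positivity)]
    have : ((4 * (k : ℝ) ^ 2) ^ j) ^ α = ((4 * (k : ℝ) ^ 2) ^ α) ^ j := by
      have hb : (0 : ℝ) ≤ 4 * (k : ℝ) ^ 2 := by positivity
      generalize 4 * (k : ℝ) ^ 2 = b at hb
      rw [← Real.rpow_natCast b j, ← Real.rpow_mul hb, ← Real.rpow_natCast (b ^ α) j,
        ← Real.rpow_mul hb, mul_comm]
    rw [this]
    gcongr
  rcases Nat.eq_zero_or_pos n with rfl | hn
  · simp only [Nat.cast_zero, Real.zero_rpow hα.ne', mul_zero, Real.exp_zero]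
    exact_mod_cast h0
  have hf2 : (2 : ℝ) ≤ f n := by exact_mod_cast h1.trans (hf hn)
  have small : c * (n : ℝ) ^ α ≤ Real.log 2 → Real.exp (c * (n : ℝ) ^ α) ≤ (f n : ℝ) := by
    intro h
    calc Real.exp (c * (n : ℝ) ^ α) ≤ Real.exp (Real.log 2) := Real.exp_le_exp.2 h
      _ = 2 := Real.exp_log (by norm_num)
      _ ≤ f n := hf2
  by_cases hn0 : (n : ℝ) < 2 * l
  · apply small
    have : (n : ℝ) ^ α ≤ B := Real.rpow_le_rpow (by positivity) hn0.le hα.le
    calc c * (n : ℝ) ^ α ≤ c * B := by gcongr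
      _ = Real.log 2 / (2 * a * k) := by rw [hc]; field_simp
      _ ≤ Real.log 2 := by
        apply div_le_self hlog.le
        nlinarith
  · push Not at hn0
    -- the largest scale below `n`
    have hex : ∃ j : ℕ, n < k ^ (j + 1) * (2 * ((4 * k) ^ (j + 1) * l)) := by
      refine ⟨n, ?_⟩
      have e1 : n < k ^ (n + 1) := lt_of_lt_of_le (Nat.lt_pow_self (by omega))
        (Nat.pow_le_pow_right (by omega) (by omega))
      have e2 : 1 ≤ 2 * ((4 * k) ^ (n + 1) * l) := by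
        have : 0 < (4 * k) ^ (n + 1) * l := by positivity
        omega
      calc n < k ^ (n + 1) * 1 := by omega
        _ ≤ _ := Nat.mul_le_mul_left _ e2
    classical
    obtain ⟨j, hj, hjmin⟩ : ∃ j : ℕ, n < k ^ (j + 1) * (2 * ((4 * k) ^ (j + 1) * l)) ∧
        k ^ j * (2 * ((4 * k) ^ j * l)) ≤ n := by
      refine ⟨Nat.find hex, Nat.find_spec hex, ?_⟩
      rcases Nat.eq_zero_or_pos (Nat.find hex) with h | h
      · rw [h]
        simp only [pow_zero, one_mul]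
        exact_mod_cast hn0
      · have := Nat.find_min hex (m := Nat.find hex - 1) (by omega)
        rw [Nat.sub_add_cancel h] at this
        omega
    have hnα : (n : ℝ) ^ α ≤ B * (k : ℝ) ^ (j + 1) := by
      have h2 : (n : ℝ) ≤ 2 * l * (4 * (k : ℝ) ^ 2) ^ (j + 1) := by
        rw [← hscale]
        exact_mod_cast hj.le
      exact (Real.rpow_le_rpow (by positivity) h2 hα.le).trans (hpowα (j + 1))
    have hmain : (2 : ℝ) ^ (k ^ j / a) ≤ f n := by
      have := (H j).trans (hf hjmin)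
      exact_mod_cast this
    by_cases hja : k ^ j < a
    · apply small
      have hja' : (k : ℝ) ^ j ≤ a := by exact_mod_cast hja.le
      calc c * (n : ℝ) ^ α ≤ c * (B * (k : ℝ) ^ (j + 1)) := by gcongr
        _ = Real.log 2 * ((k : ℝ) ^ j / (2 * a)) := by rw [hc, pow_succ]; field_simp
        _ ≤ Real.log 2 * 1 := by
          gcongr
          rw [div_le_one (by positivity)]
          linarith
        _ = Real.log 2 := mul_one _
    · push Not at hja
      have hdiv : (k : ℝ) ^ j / (2 * a) ≤ ((k ^ j / a : ℕ) : ℝ) := by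
        have hq : k ^ j < a * (k ^ j / a + 1) := Nat.lt_mul_div_succ _ (by omega)
        have hq1 : 1 ≤ k ^ j / a := (Nat.one_le_div_iff (by omega)).2 hja
        rw [div_le_iff₀ (by positivity)]
        have hq' : ((k : ℝ)) ^ j < a * (((k ^ j / a : ℕ) : ℝ) + 1) := by exact_mod_cast hq
        have hq1' : (1 : ℝ) ≤ ((k ^ j / a : ℕ) : ℝ) := by exact_mod_cast hq1
        nlinarith
      calc Real.exp (c * (n : ℝ) ^ α) ≤ Real.exp (c * (B * (k : ℝ) ^ (j + 1))) := by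
            apply Real.exp_le_exp.2
            gcongr
        _ = Real.exp (Real.log 2 * ((k : ℝ) ^ j / (2 * a))) := by
            congr 1
            rw [hc, pow_succ]; field_simp
        _ ≤ Real.exp (Real.log 2 * ((k ^ j / a : ℕ) : ℝ)) := by
            apply Real.exp_le_exp.2
            gcongr
        _ = (2 : ℝ) ^ (k ^ j / a) := by
            rw [mul_comm, Real.exp_nat_mul, Real.exp_log (by norm_num)]
        _ ≤ f n := hmain

end Pool.Agent.Helper34.AG
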