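import Pool.Agent.Helper34.AG.Trans

/-!
# AG-06: clean elements

For `x ∈ PV (i,n)` let `P, P', R` be the points of the lanes `p, p', r` at `x` and `Z` the point of
the lane `q` at the end point. `t : P → Z → R → P`, `t' : P' → Z → R → P'`. Then `t⁻¹ * t'` maps
`P' → P → R → P'`, and it fixes `Z`: `P' → Z → P`; `P → P → R`; `R → P' → P'`; `Z → R → Z`.
All other points are fixed by both. (Lanes are disjoint; `smul_left_cancel` for injectivity.)
-/

set_option autoImplicit false

open Pointwise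

namespace Pool.Agent.Helper34.AG

universe u v

variable {Γ : Type u} [Group Γ] {X : Type v} [TopologicalSpace X] [MulAction Γ X] {L : ℕ}

theorem clean (C : Coding Γ X L) (t t' : Γ) (s : ℕ → Γ) (a : ℕ → C.A) (i n : ℕ)
    (p p' q r : Fin L) (hnd : [p, p', q, r].Nodup)
    (ht : J C t s a i n p q r) (ht' : J C t' s a i n p' q r) :
    Cyc (X := X) (t⁻¹ * t') (PV C s a i n) (C.g (a i) p') (C.g (a i) p) (C.g (a i) r) := by
  have hpp' : p ≠ p' := by rintro rfl; simp at hnd
  have hpq : p ≠ q := by rintro rfl; simp at hnd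
  have hpr : p ≠ r := by rintro rfl; simp at hnd
  have hp'q : p' ≠ q := by rintro rfl; simp at hnd
  have hp'r : p' ≠ r := by rintro rfl; simp at hnd
  have lP : ∀ x ∈ PV C s a i n, ∀ l, C.g (a i) l • x ∈ C.lane l :=
    fun x hx l => lane_start C s a i n x hx l
  have t'P : ∀ x ∈ PV C s a i n, t' • (C.g (a i) p • x) = C.g (a i) p • x := by
    intro x hx
    refine fix_of_lane C t' s a i n p' q r ht' _ ?_ ?_ ?_ <;> intro h
    · exact lane_ne C hpp' (lP x hx p) h rfl
    · exact lane_ne C hpq (lP x hx p) h rfl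
    · exact lane_ne C hpr (lP x hx p) h rfl
  have tP' : ∀ x ∈ PV C s a i n, t • (C.g (a i) p' • x) = C.g (a i) p' • x := by
    intro x hx
    refine fix_of_lane C t s a i n p q r ht _ ?_ ?_ ?_ <;> intro h
    · exact lane_ne C hpp'.symm (lP x hx p') h rfl
    · exact lane_ne C hp'q (lP x hx p') h rfl
    · exact lane_ne C hp'r (lP x hx p') h rfl
  constructor
  · intro x hx
    obtain ⟨h1, h2, h3⟩ := ht.1 x hx
    obtain ⟨h1', h2', h3'⟩ := ht'.1 x hx
    refine ⟨?_, ?_, ?_⟩
    · rw [mul_smul, h1', inv_smul_eq_iff, h1]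
    · rw [mul_smul, t'P x hx, inv_smul_eq_iff, h3]
    · rw [mul_smul, h3', inv_smul_eq_iff, tP' x hx]
  · intro z hz
    by_cases hq : ∃ x ∈ PV C s a i n, z = (C.g (a (i + n)) q * wd s i n) • x
    · obtain ⟨x, hx, rfl⟩ := hq
      rw [mul_smul, (ht'.1 x hx).2.1, inv_smul_eq_iff, (ht.1 x hx).2.1]
    · push Not at hq
      have e1 : t' • z = z := ht'.2 z (fun x hx => ⟨(hz x hx).1, hq x hx, (hz x hx).2.2⟩)
      have e2 : t • z = z := ht.2 z (fun x hx => ⟨(hz x hx).2.1, hq x hx, (hz x hx).2.2⟩)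
      rw [mul_smul, e1, inv_fix e2]

end Pool.Agent.Helper34.AG
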