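import Pool.Agent.Helper34.AG.Words

/-!
# AG-05: paths of length one, and powers

`cyc_exists`: for a clopen set `V` of points of colour `α` whose images `σ • x` have colour `β`:
apply `ContainsAlt` to `U = C.g α p • V` (clopen: image under a homeomorphism, e.g.
`IsClopen.smul`/`Homeomorph.smul`), `g = C.g β q * σ * (C.g α p)⁻¹`, `h = C.g α r * (C.g α p)⁻¹`;
`g • U = (C.g β q * σ) • V ⊆ C.lane q`, `h • U ⊆ C.lane r`, `U ⊆ C.lane p` are disjoint. Translate
the conclusion to `Cyc`.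

`cost_base`: `PV C s a i 1 = {x | C.c x = a i ∧ C.c (s i • x) = a (i+1)}`, `wd s i 1 = s i`. For
every `(σ, α, β, p, q, r)` with `σ ∈ Ball S 1` (a finite set, `finite_Ball`) choose `t` by
`cyc_exists` and a radius by `exists_mem_Ball`; take the maximum over the finitely many
tuples (`C.fin : Fintype C.A`), and `Ball_mono`. (If `p, q, r` are not distinct nothing is needed.)
-/

set_option autoImplicit false

open Pointwise

namespace Pool.Agent.Helper34.AG

universe u v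

variable {Γ : Type u} [Group Γ] {X : Type v} [TopologicalSpace X] [MulAction Γ X] {L : ℕ}

theorem cyc_exists [ContinuousConstSMul Γ X] (halt : ContainsAlt Γ X) (C : Coding Γ X L)
    (V : Set X) (hV : IsClopen V) (α β : C.A) (σ : Γ) (h1 : ∀ x ∈ V, C.c x = α)
    (h2 : ∀ x ∈ V, C.c (σ • x) = β) (p q r : Fin L) (hpq : p ≠ q) (hpr : p ≠ r) (hqr : q ≠ r) :
    ∃ t : Γ, Cyc (X := X) t V (C.g α p) (C.g β q * σ) (C.g α r) := by
  have hclopen : IsClopen (C.g α p • V) := by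
    have : C.g α p • V = (fun x : X => (C.g α p)⁻¹ • x) ⁻¹' V := by
      ext x
      rw [Set.mem_preimage, Set.mem_smul_set_iff_inv_smul_mem]
    rw [this]
    exact hV.preimage (continuous_const_smul _)
  have e1 : (C.g β q * σ * (C.g α p)⁻¹) • (C.g α p • V) = (C.g β q * σ) • V := by
    rw [smul_smul, mul_assoc _ (C.g α p)⁻¹, inv_mul_cancel, mul_one]
  have e2 : (C.g α r * (C.g α p)⁻¹) • (C.g α p • V) = C.g α r • V := by
    rw [smul_smul, mul_assoc, inv_mul_cancel, mul_one]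
  have s1 : C.g α p • V ⊆ C.lane p := by
    rintro _ ⟨x, hx, rfl⟩
    simp only [← h1 x hx]
    exact C.mem x p
  have s2 : (C.g β q * σ) • V ⊆ C.lane q := by
    rintro _ ⟨x, hx, rfl⟩
    simp only [mul_smul, ← h2 x hx]
    exact C.mem _ q
  have s3 : C.g α r • V ⊆ C.lane r := by
    rintro _ ⟨x, hx, rfl⟩
    simp only [← h1 x hx]
    exact C.mem x r
  obtain ⟨t, ht1, ht2⟩ := halt (C.g α p • V) (C.g β q * σ * (C.g α p)⁻¹)
    (C.g α r * (C.g α p)⁻¹) hclopen
    (by rw [e1]; exact (C.disj p q hpq).mono s1 s2)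
    (by rw [e2]; exact (C.disj p r hpr).mono s1 s3)
    (by rw [e1, e2]; exact (C.disj q r hqr).mono s2 s3)
  refine ⟨t, fun x hx => ?_, fun z hz => ?_⟩
  · obtain ⟨a1, a2, a3⟩ := ht1 (C.g α p • x) ⟨x, hx, rfl⟩
    rw [smul_smul (C.g β q * σ * (C.g α p)⁻¹), mul_assoc _ (C.g α p)⁻¹, inv_mul_cancel,
      mul_one] at a1 a2
    rw [smul_smul (C.g α r * (C.g α p)⁻¹), mul_assoc, inv_mul_cancel, mul_one] at a2 a3
    exact ⟨a1, a2, a3⟩
  · refine ht2 z ?_ ?_ ?_
    · rintro ⟨x, hx, rfl⟩; exact (hz x hx).1 rfl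
    · rw [e1]; rintro ⟨x, hx, rfl⟩; exact (hz x hx).2.1 rfl
    · rw [e2]; rintro ⟨x, hx, rfl⟩; exact (hz x hx).2.2 rfl

theorem cost_base [ContinuousConstSMul Γ X] (halt : ContainsAlt Γ X) (C : Coding Γ X L)
    (S : Set Γ) (hS : S.Finite) (hgen : Subgroup.closure S = ⊤) :
    ∃ l : ℕ, 1 ≤ l ∧ Cost C S 1 l := by
  haveI := C.fin
  haveI : Fintype ↥(Ball S 1) := (finite_Ball S hS 1).fintype
  -- for every tuple a radius
  have key : ∀ u : ↥(Ball S 1) × C.A × C.A × Fin L × Fin L × Fin L,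
      ∃ l : ℕ, (u.2.2.2.1 ≠ u.2.2.2.2.1 → u.2.2.2.1 ≠ u.2.2.2.2.2 →
        u.2.2.2.2.1 ≠ u.2.2.2.2.2 → ∃ t ∈ Ball S l, Cyc (X := X) t
          {x | C.c x = u.2.1 ∧ C.c ((u.1 : Γ) • x) = u.2.2.1}
          (C.g u.2.1 u.2.2.2.1) (C.g u.2.2.1 u.2.2.2.2.1 * (u.1 : Γ))
          (C.g u.2.1 u.2.2.2.2.2)) := by
    rintro ⟨σ, α, β, p, q, r⟩
    by_cases h : p ≠ q ∧ p ≠ r ∧ q ≠ r
    · obtain ⟨h1, h2, h3⟩ := h
      have hV : IsClopen {x | C.c x = α ∧ C.c ((σ : Γ) • x) = β} := by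
        have e : {x | C.c x = α ∧ C.c ((σ : Γ) • x) = β} =
            (C.c ⁻¹' {α}) ∩ (fun x : X => (σ : Γ) • x) ⁻¹' (C.c ⁻¹' {β}) := by
          ext x; simp
        rw [e]
        exact (C.clopen α).inter ((C.clopen β).preimage (continuous_const_smul _))
      obtain ⟨t, ht⟩ := cyc_exists halt C _ hV α β (σ : Γ) (fun x hx => hx.1) (fun x hx => hx.2)
        p q r h1 h2 h3
      obtain ⟨l, hl⟩ := exists_mem_Ball S hgen t
      exact ⟨l, fun _ _ _ => ⟨t, hl, ht⟩⟩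
    · refine ⟨0, fun h1 h2 h3 => absurd ⟨h1, h2, h3⟩ h⟩
  choose f hf using key
  refine ⟨Finset.univ.sup f + 1, by omega, ?_⟩
  intro s a hs i p q r h1 h2 h3
  obtain ⟨t, ht, hcyc⟩ := hf (⟨s i, hs i⟩, a i, a (i + 1), p, q, r) h1 h2 h3
  refine ⟨t, Ball_mono S ?_ ht, ?_⟩
  · exact le_trans (Finset.le_sup (f := f) (Finset.mem_univ _)) (Nat.le_succ _)
  · have e : PV C s a i 1 = {x | C.c x = a i ∧ C.c (s i • x) = a (i + 1)} := by
      ext x
      constructor
      · intro hx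
        have h0 := hx 0 (by omega)
        have h1 := hx 1 le_rfl
        simp only [wd, one_smul, Nat.add_zero, mul_one] at h0 h1
        exact ⟨h0, h1⟩
      · rintro ⟨hx0, hx1⟩ j hj
        rcases (by omega : j = 0 ∨ j = 1) with rfl | rfl
        · simpa [wd] using hx0
        · simpa [wd] using hx1
    unfold J
    rw [e]
    simpa [wd] using hcyc

end Pool.Agent.Helper34.AG
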