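import Pool.Agent.Helper34.AG.Trans

/-!
# AG-03: the gadget

Put `w = wd s i n`, and for `x ∈ PV (i,n)`: `P = C.g (a i) p • x`, `P' = C.g (a i) p' • x`,
`R = C.g (a i) r • x`, `Q = C.g (a (i+n)) q1 • (w • x)`, and for `x ∈ PV (i,n+m)` also
`Z = C.g (a (i+(n+m))) q • (wd s i (n+m) • x)`. They lie in the lanes `p, p', r, q1, q`.
`M : P → Q → R → P`, `M' : P' → Q → R → P'`; `N` fixes the lanes `p, p', r`, and `N Q = Z` if
`x ∈ PV (i,n+m)` (i.e. `w • x ∈ PV (i+n,m)`, `mem_PV_add`), `N Q = Q` otherwise. Let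
`A = N M N⁻¹`, `B = N M' N⁻¹`. With `Q* = N Q`: `A : P → Q* → R → P`, `B : P' → Q* → R → P'`
(`x ∈ PV (i,n)`), and `A`, `B` fix all points which are not of these forms. The element is
`G = M⁻¹ A B⁻¹ M'` (as `N M M'⁻¹ N⁻¹ = A B⁻¹`).

For `x ∈ PV (i,n+m)`:
 `P`: M' fixes P, B⁻¹ fixes P, A P = Z, M⁻¹ Z = Z. So G P = Z.
 `Z`: M' fixes Z, B⁻¹ Z = P', A P' = P', M⁻¹ P' = P'. So G Z = P'.
 `P'`: M' P' = Q, B⁻¹ Q = Q, A Q = Q, M⁻¹ Q = P. So G P' = P.
 `Q`: M' Q = R, B⁻¹ R = Z, A Z = R, M⁻¹ R = Q. So G Q = Q.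
 `R`: M' R = P', B⁻¹ P' = R, A R = P, M⁻¹ P = R. So G R = R.
For `x ∈ PV (i,n)` not in `PV (i,n+m)`: `Q* = Q`, `A = M`, `B = M'` on the four points, `G` fixes
them. All other points `z` are fixed by `M'`, `B`, `A`, `M`: here OTHER means: not
`P, P', Q, R` for some `x ∈ PV (i,n)` and not `Z` for some `x ∈ PV (i,n+m)`; to see that `A` and
`B` fix `z`: `N⁻¹ z` is then not of the form `P, Q, R` (resp. `P', Q, R`), since
`N P = P`, `N P' = P'`, `N R = R`, `N Q ∈ {Q, Z}`.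

The second clause of the conclusion: `z` is not of the form `P, Z, P'` with `x ∈ PV (i,n+m)`;
distinguish: `z = Q` or `R` for some `x ∈ PV (i,n+m)` (fixed by the table), `z = P, P', Q, R` for
some `x ∈ PV (i,n)` not in `PV (i,n+m)` (fixed), or other (fixed).
Injectivity facts: `C.g _ _ • (w • x) = C.g _ _ • (w • x')` implies `x = x'`
(`smul_left_cancel`); different lanes are disjoint (`C.disj`, `lane_start`, `lane_end`).
-/

set_option autoImplicit false

open Pointwise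

namespace Pool.Agent.Helper34.AG

universe u v

variable {Γ : Type u} [Group Γ] {X : Type v} [TopologicalSpace X] [MulAction Γ X] {L : ℕ}

omit [TopologicalSpace X] in
theorem chain6 {M M' N : Γ} {z z1 z2 z3 z4 z5 v : X} (h1 : M' • z = z1) (h2 : N • z2 = z1)
    (h3 : M' • z3 = z2) (h4 : M • z3 = z4) (h5 : N • z4 = z5) (h6 : M • v = z5) :
    (M⁻¹ * N * M * M'⁻¹ * N⁻¹ * M') • z = v := by
  simp only [mul_smul]
  rw [h1, ← h2, inv_smul_smul, ← h3, inv_smul_smul, h4, h5, ← h6, inv_smul_smul]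

theorem gadget (C : Coding Γ X L) (M M' N : Γ) (s : ℕ → Γ) (a : ℕ → C.A) (i n m : ℕ)
    (p p' r q1 q : Fin L) (hnd : [p, p', r, q1, q].Nodup)
    (hM : J C M s a i n p q1 r) (hM' : J C M' s a i n p' q1 r)
    (hN0 : ∀ z : X, z ∈ C.lane p ∨ z ∈ C.lane p' ∨ z ∈ C.lane r → N • z = z)
    (hN1 : ∀ y ∈ PV C s a (i + n) m,
      N • (C.g (a (i + n)) q1 • y) = C.g (a (i + n + m)) q • (wd s (i + n) m • y))
    (hN2 : ∀ z ∈ C.lane q1, (∀ y ∈ PV C s a (i + n) m, z ≠ C.g (a (i + n)) q1 • y) →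
      N • z = z) :
    J C (M⁻¹ * N * M * M'⁻¹ * N⁻¹ * M') s a i (n + m) p q p' := by
  have hpp' : p ≠ p' := by rintro rfl; simp at hnd
  have hpr : p ≠ r := by rintro rfl; simp at hnd
  have hpq1 : p ≠ q1 := by rintro rfl; simp at hnd
  have hpq : p ≠ q := by rintro rfl; simp at hnd
  have hp'r : p' ≠ r := by rintro rfl; simp at hnd
  have hp'q1 : p' ≠ q1 := by rintro rfl; simp at hnd
  have hp'q : p' ≠ q := by rintro rfl; simp at hnd
  have hrq1 : r ≠ q1 := by rintro rfl; simp at hnd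
  have hrq : r ≠ q := by rintro rfl; simp at hnd
  have hq1q : q1 ≠ q := by rintro rfl; simp at hnd
  -- lane membership
  have lP : ∀ x ∈ PV C s a i n, ∀ l, C.g (a i) l • x ∈ C.lane l :=
    fun x hx l => lane_start C s a i n x hx l
  have lQ : ∀ x ∈ PV C s a i n, (C.g (a (i + n)) q1 * wd s i n) • x ∈ C.lane q1 := by
    intro x hx; rw [mul_smul]; exact lane_end C s a i n x hx q1
  have lZ : ∀ x ∈ PV C s a i (n + m),
      (C.g (a (i + (n + m))) q * wd s i (n + m)) • x ∈ C.lane q := by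
    intro x hx; rw [mul_smul]; exact lane_end C s a i (n + m) x hx q
  have V1 : ∀ x ∈ PV C s a i (n + m), x ∈ PV C s a i n :=
    fun x hx => ((mem_PV_add C s a i n m x).1 hx).1
  -- N on Q
  have Nin : ∀ x ∈ PV C s a i (n + m), N • ((C.g (a (i + n)) q1 * wd s i n) • x) =
      (C.g (a (i + (n + m))) q * wd s i (n + m)) • x := by
    intro x hx
    have h2 := ((mem_PV_add C s a i n m x).1 hx).2
    rw [mul_smul, hN1 _ h2, mul_smul, wd_add, mul_smul, ← Nat.add_assoc]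
  have Nout : ∀ x ∈ PV C s a i n, x ∉ PV C s a i (n + m) →
      N • ((C.g (a (i + n)) q1 * wd s i n) • x) = (C.g (a (i + n)) q1 * wd s i n) • x := by
    intro x hx hx'
    refine hN2 _ (lQ x hx) (fun y hy he => ?_)
    rw [mul_smul, smul_left_cancel_iff] at he
    apply hx'
    rw [mem_PV_add]
    exact ⟨hx, he ▸ hy⟩
  -- M' and M fix the other lanes
  have M'P : ∀ x ∈ PV C s a i n, M' • (C.g (a i) p • x) = C.g (a i) p • x := by
    intro x hx
    refine fix_of_lane C M' s a i n p' q1 r hM' _ ?_ ?_ ?_ <;> intro h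
    · exact lane_ne C hpp' (lP x hx p) h rfl
    · exact lane_ne C hpq1 (lP x hx p) h rfl
    · exact lane_ne C hpr (lP x hx p) h rfl
  have MP' : ∀ x ∈ PV C s a i n, M • (C.g (a i) p' • x) = C.g (a i) p' • x := by
    intro x hx
    refine fix_of_lane C M s a i n p q1 r hM _ ?_ ?_ ?_ <;> intro h
    · exact lane_ne C hpp'.symm (lP x hx p') h rfl
    · exact lane_ne C hp'q1 (lP x hx p') h rfl
    · exact lane_ne C hp'r (lP x hx p') h rfl
  have MZ : ∀ z ∈ C.lane q, M • z = z := by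
    intro z hz
    refine fix_of_lane C M s a i n p q1 r hM _ ?_ ?_ ?_ <;> intro h
    · exact lane_ne C hpq.symm hz h rfl
    · exact lane_ne C hq1q.symm hz h rfl
    · exact lane_ne C hrq.symm hz h rfl
  have M'Z : ∀ z ∈ C.lane q, M' • z = z := by
    intro z hz
    refine fix_of_lane C M' s a i n p' q1 r hM' _ ?_ ?_ ?_ <;> intro h
    · exact lane_ne C hp'q.symm hz h rfl
    · exact lane_ne C hq1q.symm hz h rfl
    · exact lane_ne C hrq.symm hz h rfl
  have NP : ∀ x ∈ PV C s a i n, N • (C.g (a i) p • x) = C.g (a i) p • x :=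
    fun x hx => hN0 _ (Or.inl (lP x hx p))
  have NP' : ∀ x ∈ PV C s a i n, N • (C.g (a i) p' • x) = C.g (a i) p' • x :=
    fun x hx => hN0 _ (Or.inr (Or.inl (lP x hx p')))
  have NR : ∀ x ∈ PV C s a i n, N • (C.g (a i) r • x) = C.g (a i) r • x :=
    fun x hx => hN0 _ (Or.inr (Or.inr (lP x hx r)))
  -- the preimage under N
  have key : ∀ z : X, (∀ x ∈ PV C s a i n, z ≠ C.g (a i) p • x ∧ z ≠ C.g (a i) p' • x ∧
      z ≠ C.g (a i) r • x) →
      (∀ x ∈ PV C s a i n, x ∉ PV C s a i (n + m) →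
        z ≠ (C.g (a (i + n)) q1 * wd s i n) • x) →
      (∀ x ∈ PV C s a i (n + m), z ≠ (C.g (a (i + (n + m))) q * wd s i (n + m)) • x) →
      M • (N⁻¹ • z) = N⁻¹ • z ∧ M' • (N⁻¹ • z) = N⁻¹ • z := by
    intro z h1 h2 h3
    have hQ : ∀ x ∈ PV C s a i n, N⁻¹ • z ≠ (C.g (a (i + n)) q1 * wd s i n) • x := by
      intro x hx he
      rw [inv_smul_eq_iff] at he
      by_cases hx' : x ∈ PV C s a i (n + m)
      · rw [Nin x hx'] at he; exact h3 x hx' he
      · rw [Nout x hx hx'] at he; exact h2 x hx hx' he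
    constructor
    · refine hM.2 _ (fun x hx => ⟨?_, hQ x hx, ?_⟩)
      · intro he; rw [inv_smul_eq_iff, NP x hx] at he; exact (h1 x hx).1 he
      · intro he; rw [inv_smul_eq_iff, NR x hx] at he; exact (h1 x hx).2.2 he
    · refine hM'.2 _ (fun x hx => ⟨?_, hQ x hx, ?_⟩)
      · intro he; rw [inv_smul_eq_iff, NP' x hx] at he; exact (h1 x hx).2.1 he
      · intro he; rw [inv_smul_eq_iff, NR x hx] at he; exact (h1 x hx).2.2 he
  constructor
  · intro x hx
    have hx1 := V1 x hx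
    obtain ⟨m1, m2, m3⟩ := hM.1 x hx1
    obtain ⟨m1', m2', m3'⟩ := hM'.1 x hx1
    refine ⟨?_, ?_, ?_⟩
    · exact chain6 (M'P x hx1) (NP x hx1) (M'P x hx1) m1 (Nin x hx) (MZ _ (lZ x hx))
    · exact chain6 (M'Z _ (lZ x hx)) (Nin x hx) m1' (MP' x hx1) (NP' x hx1) (MP' x hx1)
    · obtain ⟨k1, k2⟩ := key ((C.g (a (i + n)) q1 * wd s i n) • x)
        (fun y hy => ⟨lane_ne C hpq1.symm (lQ x hx1) (lP y hy p),
          lane_ne C hp'q1.symm (lQ x hx1) (lP y hy p'),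
          lane_ne C hrq1.symm (lQ x hx1) (lP y hy r)⟩)
        (fun y hy hy' he => by
          rw [smul_left_cancel_iff] at he
          rw [he] at hx; exact hy' hx)
        (fun y hy => lane_ne C hq1q (lQ x hx1) (lZ y hy))
      exact chain6 m1' (smul_inv_smul N _) k2 k1 (smul_inv_smul N _) m1
  · intro z hz
    by_cases h1 : ∃ x ∈ PV C s a i n, z = C.g (a i) p • x
    · obtain ⟨x, hx, rfl⟩ := h1
      have hx' : x ∉ PV C s a i (n + m) := fun h => (hz x h).1 rfl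
      obtain ⟨m1, m2, m3⟩ := hM.1 x hx
      exact chain6 (M'P x hx) (NP x hx) (M'P x hx) m1 (Nout x hx hx') m1
    by_cases h2 : ∃ x ∈ PV C s a i n, z = C.g (a i) p' • x
    · obtain ⟨x, hx, rfl⟩ := h2
      have hx' : x ∉ PV C s a i (n + m) := fun h => (hz x h).2.2 rfl
      obtain ⟨m1', m2', m3'⟩ := hM'.1 x hx
      exact chain6 m1' (Nout x hx hx') m1' (MP' x hx) (NP' x hx) (MP' x hx)
    by_cases h3 : ∃ x ∈ PV C s a i n, z = (C.g (a (i + n)) q1 * wd s i n) • x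
    · obtain ⟨x, hx, rfl⟩ := h3
      obtain ⟨m1, m2, m3⟩ := hM.1 x hx
      obtain ⟨m1', m2', m3'⟩ := hM'.1 x hx
      exact chain6 m2' (NR x hx) m2' m2 (NR x hx) m2
    by_cases h4 : ∃ x ∈ PV C s a i n, z = C.g (a i) r • x
    · obtain ⟨x, hx, rfl⟩ := h4
      obtain ⟨m1, m2, m3⟩ := hM.1 x hx
      obtain ⟨m1', m2', m3'⟩ := hM'.1 x hx
      exact chain6 m3' (NP' x hx) m3' m3 (NP x hx) m3
    push Not at h1 h2 h3 h4
    obtain ⟨k1, k2⟩ := key z (fun x hx => ⟨h1 x hx, h2 x hx, h4 x hx⟩)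
      (fun x hx _ => h3 x hx) (fun x hx => (hz x hx).2.1)
    refine chain6 (z2 := N⁻¹ • z) (hM'.2 z (fun x hx => ⟨h2 x hx, h3 x hx, h4 x hx⟩))
      (smul_inv_smul N _) k2 k1 (smul_inv_smul N _)
      (hM.2 z (fun x hx => ⟨h1 x hx, h3 x hx, h4 x hx⟩))

end Pool.Agent.Helper34.AG
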