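import Pool.Agent.Helper34.AG.Trans
import Pool.Agent.Helper34.AG.Gadget

/-!
# AG-04: cost of concatenation

`tr_chain`: induction on `m`. `m = 0`: choose `r ∉ insert q1 (insert q G)` (cardinality at most
`G.card + 2 < L`), take `t` from `hC` for the triple `(q1, q, r)` and use `tr_base`,
`F = {q1, q, r}`. Step: choose `q2 ∉ insert q1 (insert q G)` and `r ∉ insert q2 (insert q1 (insert
q G))`; induction hypothesis at `i + n` with `(q2, q)` and `G' = insert q1 (insert r G)`
(`G'.card + 2 * m + 3 ≤ G.card + 2 * (m+1) + 3 ≤ L`) gives `N, F`; take `t` from `hC` for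
`(q1, q2, r)` at `i`, and use `tr_step`: `t⁻¹ * N * t ∈ Ball S (l + (2m+1) l + l)`;
`(m + 1 + 1) * n = n + (m+1) * n`.

`cost_step`: `(m + 2) * n = n + (m + 1) * n`. Given distinct `p, q, r₀` (the target triple; in the
notation of `gadget` `p' = r₀`), choose `r`, `q1` such that `[p, p', r, q1, q]` is `Nodup`; take `M`,
`M'` from `hC` for `(p, q1, r)`, `(p', q1, r)`, and `N, F` from `tr_chain` at `i + n` with
`G = {p, p', r}` and `(q1, q)` (`3 + 2 m + 3 ≤ L`). `F` is disjoint from `G`, hence `N` fixes the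
lanes `p, p', r` (third clause of `Tr`; different lanes are disjoint). Radius:
`l + (2m+1) l + l + l + (2m+1) l + l = (4 m + 6) l ≤ 4 (m+2) l`.
-/

set_option autoImplicit false

open Pointwise

namespace Pool.Agent.Helper34.AG

universe u v

variable {Γ : Type u} [Group Γ] {X : Type v} [TopologicalSpace X] [MulAction Γ X] {L : ℕ}

theorem exists_lane (F : Finset (Fin L)) (h : F.card < L) : ∃ r : Fin L, r ∉ F := by
  by_contra hcon
  push Not at hcon
  have : F = Finset.univ := Finset.eq_univ_iff_forall.2 hcon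
  rw [this, Finset.card_univ, Fintype.card_fin] at h
  omega

theorem tr_chain (C : Coding Γ X L) (S : Set Γ) (n l : ℕ) (hC : Cost C S n l) (s : ℕ → Γ)
    (a : ℕ → C.A) (hs : ∀ j, s j ∈ Ball S 1) (m : ℕ) : ∀ (i : ℕ) (q1 q : Fin L)
    (G : Finset (Fin L)), q1 ≠ q → q1 ∉ G → q ∉ G → G.card + 2 * m + 3 ≤ L →
    ∃ N ∈ Ball S ((2 * m + 1) * l), ∃ F : Finset (Fin L), Disjoint F G ∧ q1 ∈ F ∧
      Tr C N s a i ((m + 1) * n) q1 q F := by
  induction m with
  | zero =>
    intro i q1 q G h1 h2 h3 hL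
    obtain ⟨r, hr⟩ := exists_lane (insert q1 (insert q G)) (by
      have h1 := Finset.card_insert_le q1 (insert q G)
      have h2 := Finset.card_insert_le q G
      omega)
    simp only [Finset.mem_insert, not_or] at hr
    obtain ⟨hr1, hr2, hr3⟩ := hr
    obtain ⟨t, ht, hJ⟩ := hC s a hs i q1 q r h1 (Ne.symm hr1) (Ne.symm hr2)
    refine ⟨t, ?_, {q1, q, r}, ?_, by simp, ?_⟩
    · simpa using ht
    · rw [Finset.disjoint_left]
      intro x hx
      simp only [Finset.mem_insert, Finset.mem_singleton] at hx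
      rcases hx with rfl | rfl | rfl <;> assumption
    · have := tr_base C t s a i n q1 q r h1 (Ne.symm hr1) (Ne.symm hr2) hJ
      simpa using this
  | succ m ih =>
    intro i q1 q G h1 h2 h3 hL
    obtain ⟨q2, hq2⟩ := exists_lane (insert q1 (insert q G)) (by
      have h1 := Finset.card_insert_le q1 (insert q G)
      have h2 := Finset.card_insert_le q G
      omega)
    obtain ⟨r, hr⟩ := exists_lane (insert q2 (insert q1 (insert q G))) (by
      have h0 := Finset.card_insert_le q2 (insert q1 (insert q G))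
      have h1 := Finset.card_insert_le q1 (insert q G)
      have h2 := Finset.card_insert_le q G
      omega)
    simp only [Finset.mem_insert, not_or] at hr hq2
    obtain ⟨hq21, hq2q, hq2G⟩ := hq2
    obtain ⟨hrq2, hrq1, hrq, hrG⟩ := hr
    obtain ⟨N, hN, F, hFG, hq2F, hTr⟩ := ih (i + n) q2 q (insert q1 (insert r G)) hq2q
      (by simp only [Finset.mem_insert, not_or]; exact ⟨hq21, Ne.symm hrq2, hq2G⟩)
      (by simp only [Finset.mem_insert, not_or]; exact ⟨Ne.symm h1, Ne.symm hrq, h3⟩)
      (by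
        have h1 := Finset.card_insert_le q1 (insert r G)
        have h2 := Finset.card_insert_le r G
        omega)
    obtain ⟨t, ht, hJ⟩ := hC s a hs i q1 q2 r (Ne.symm hq21) (Ne.symm hrq1) (Ne.symm hrq2)
    have hF1 : q1 ∉ F := fun h => Finset.disjoint_left.1 hFG h (by simp)
    have hFr : r ∉ F := fun h => Finset.disjoint_left.1 hFG h (by simp)
    refine ⟨t⁻¹ * N * t, ?_, insert q1 (insert r F), ?_, by simp, ?_⟩
    · have := mul_mem_Ball S (mul_mem_Ball S (inv_mem_Ball S ht) hN) ht
      refine Ball_mono S (le_of_eq ?_) this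
      ring
    · rw [Finset.disjoint_left]
      intro x hx hxG
      simp only [Finset.mem_insert] at hx
      rcases hx with rfl | rfl | hx
      · exact h2 hxG
      · exact hrG hxG
      · exact Finset.disjoint_left.1 hFG hx (by simp [hxG])
    · have := tr_step C t N s a i n ((m + 1) * n) q1 q2 q r F (Ne.symm hq21) (Ne.symm hrq1)
        (Ne.symm hrq2) (Ne.symm h1) (Ne.symm hq2q) (Ne.symm hrq) hF1 hFr hq2F hJ hTr
      have e : (m + 1 + 1) * n = n + (m + 1) * n := by ring
      rw [e]
      exact this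

theorem cost_step (C : Coding Γ X L) (S : Set Γ) (n l m : ℕ) (hL : 2 * m + 6 ≤ L)
    (hC : Cost C S n l) : Cost C S ((m + 2) * n) (4 * (m + 2) * l) := by
  intro s a hs i p q p' hpq hpp' hqp'
  obtain ⟨r, hr⟩ := exists_lane ({p, q, p'} : Finset (Fin L)) (by
    have := Finset.card_le_three (a := p) (b := q) (c := p')
    omega)
  obtain ⟨q1, hq1⟩ := exists_lane (insert r ({p, q, p'} : Finset (Fin L))) (by
    have := Finset.card_le_three (a := p) (b := q) (c := p')
    have h1 := Finset.card_insert_le r ({p, q, p'} : Finset (Fin L))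
    omega)
  simp only [Finset.mem_insert, Finset.mem_singleton, not_or] at hr hq1
  obtain ⟨hrp, hrq, hrp'⟩ := hr
  obtain ⟨hq1r, hq1p, hq1q, hq1p'⟩ := hq1
  obtain ⟨N, hN, F, hFG, hq1F, hTr⟩ := tr_chain C S n l hC s a hs m (i + n) q1 q {p, p', r}
    hq1q (by simp [hq1p, hq1p', hq1r]) (by simp [Ne.symm hpq, hqp', Ne.symm hrq])
    (by
      have := Finset.card_le_three (a := p) (b := p') (c := r)
      omega)
  obtain ⟨M, hM, hJ⟩ := hC s a hs i p q1 r (Ne.symm hq1p) (Ne.symm hrp) hq1r
  obtain ⟨M', hM', hJ'⟩ := hC s a hs i p' q1 r (Ne.symm hq1p') (Ne.symm hrp') hq1r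
  have e : (m + 2) * n = n + (m + 1) * n := by ring
  refine ⟨M⁻¹ * N * M * M'⁻¹ * N⁻¹ * M', ?_, ?_⟩
  · have := mul_mem_Ball S (mul_mem_Ball S (mul_mem_Ball S (mul_mem_Ball S (mul_mem_Ball S
      (inv_mem_Ball S hM) hN) hM) (inv_mem_Ball S hM')) (inv_mem_Ball S hN)) hM'
    refine Ball_mono S ?_ this
    nlinarith [Nat.zero_le l]
  · rw [e]
    obtain ⟨h1, h2, h3⟩ := hTr
    refine gadget C M M' N s a i n ((m + 1) * n) p p' r q1 q ?_ hJ hJ' ?_ h1 h2
    · simp only [List.nodup_cons, List.mem_cons, List.not_mem_nil, or_false, not_or,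
        not_false_eq_true, List.nodup_nil, and_true]
      exact ⟨⟨hpp', Ne.symm hrp, Ne.symm hq1p, hpq⟩, ⟨Ne.symm hrp', Ne.symm hq1p', Ne.symm hqp'⟩,
        ⟨Ne.symm hq1r, hrq⟩, hq1q⟩
    · intro z hz
      refine h3 z (fun l hl hzl => ?_)
      rcases hz with hz | hz | hz
      · have : l ≠ p := by rintro rfl; exact Finset.disjoint_left.1 hFG hl (by simp)
        exact lane_ne C this hzl hz rfl
      · have : l ≠ p' := by rintro rfl; exact Finset.disjoint_left.1 hFG hl (by simp)
        exact lane_ne C this hzl hz rfl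
      · have : l ≠ r := by rintro rfl; exact Finset.disjoint_left.1 hFG hl (by simp)
        exact lane_ne C this hzl hz rfl

end Pool.Agent.Helper34.AG
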