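import Pool.Agent.Helper34.AG.Words

/-!
# AG-08: the separating path cylinders

From `w ∈ Ball S (r+1)` with `C.c (w • x) ≠ C.c (w • y)` get letters: there is
`s : ℕ → Γ` with `s j ∈ Ball S 1` for all `j`, `s j = 1` for `j ≥ r + 1`, and `wd s 0 (r+1) = w`
(`word_of_ball`, induction on `r` with `mem_Ball_succ'`: `w = σ * y`, extend `s` by `s r = σ`).
Put `a j = C.c (wd s 0 j • x)`. For `j ≥ r+1`: `wd s 0 j = wd s 0 (r+1)`. Then `x ∈ PV C s a 0 K`
trivially (`0 + j = j`), `y ∉` because of `j = r + 1 ≤ K`. If `u`, `v` agree on `Ball S (r+1)` then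
`C.c (wd s 0 j • u) = C.c (wd s 0 j • v)` for all `j`, because `wd s 0 j ∈ Ball S (r+1)` for all
`j` (for `j ≤ r+1` it is in `Ball S j`, `Ball_mono`).
-/

set_option autoImplicit false

open Pointwise

namespace Pool.Agent.Helper34.AG

universe u v

variable {Γ : Type u} [Group Γ] {X : Type v} [TopologicalSpace X] [MulAction Γ X] {L : ℕ}

omit [TopologicalSpace X] [MulAction Γ X] in
theorem wd_congr (s s' : ℕ → Γ) (i n : ℕ) (h : ∀ j, j < n → s (i + j) = s' (i + j)) :
    wd s i n = wd s' i n := by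
  induction n with
  | zero => rfl
  | succ n ih =>
    rw [wd, wd, h n (by omega), ih (fun j hj => h j (by omega))]

omit [TopologicalSpace X] [MulAction Γ X] in
theorem word_of_ball (S : Set Γ) (n : ℕ) : ∀ (w : Γ), w ∈ Ball S n →
    ∃ s : ℕ → Γ, (∀ j, s j ∈ Ball S 1) ∧ (∀ j, n ≤ j → s j = 1) ∧ wd s 0 n = w := by
  induction n with
  | zero =>
    intro w hw
    refine ⟨fun _ => 1, fun j => one_mem_Ball S 1, fun j _ => rfl, ?_⟩
    unfold Ball at hw
    rw [pow_zero, Set.mem_one] at hw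
    rw [hw, wd]
  | succ n ih =>
    intro w hw
    obtain ⟨σ, hσ, y, hy, rfl⟩ := (mem_Ball_succ' S n w).1 hw
    obtain ⟨s, h1, h2, h3⟩ := ih y hy
    refine ⟨fun j => if j = n then σ else s j, fun j => ?_, fun j hj => ?_, ?_⟩
    · by_cases h : j = n
      · simp [h, hσ]
      · simp [h, h1 j]
    · have : j ≠ n := by omega
      simp [this, h2 j (by omega)]
    · rw [wd]
      have : wd (fun j => if j = n then σ else s j) 0 n = wd s 0 n :=
        wd_congr _ _ 0 n (fun j hj => by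
          have : j ≠ n := by omega
          simp [this])
      rw [this, h3]
      simp

omit [TopologicalSpace X] [MulAction Γ X] in
theorem wd_mem_Ball (S : Set Γ) (s : ℕ → Γ) (h : ∀ j, s j ∈ Ball S 1) (n : ℕ) :
    wd s 0 n ∈ Ball S n := by
  induction n with
  | zero => exact one_mem_Ball S 0
  | succ n ih =>
    rw [mem_Ball_succ']
    exact ⟨s (0 + n), h _, wd s 0 n, ih, rfl⟩

omit [TopologicalSpace X] [MulAction Γ X] in
theorem wd_stable (s : ℕ → Γ) (n : ℕ) (h : ∀ j, n ≤ j → s j = 1) (j : ℕ) (hj : n ≤ j) :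
    wd s 0 j = wd s 0 n := by
  induction j with
  | zero =>
    have : n = 0 := by omega
    rw [this]
  | succ j ih =>
    by_cases hjn : n = j + 1
    · rw [hjn]
    · rw [wd, ih (by omega), h (0 + j) (by omega), one_mul]

theorem path_of_sep (C : Coding Γ X L) (S : Set Γ) (r K : ℕ) (hK : r + 1 ≤ K) (x y : X)
    (hxy : ∃ w ∈ Ball S (r + 1), C.c (w • x) ≠ C.c (w • y)) :
    ∃ (s : ℕ → Γ) (a : ℕ → C.A), (∀ j, s j ∈ Ball S 1) ∧ x ∈ PV C s a 0 K ∧
      y ∉ PV C s a 0 K ∧
      ∀ u v : X, (∀ w ∈ Ball S (r + 1), C.c (w • u) = C.c (w • v)) →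
        (u ∈ PV C s a 0 K ↔ v ∈ PV C s a 0 K) := by
  obtain ⟨w, hw, hne⟩ := hxy
  obtain ⟨s, h1, h2, h3⟩ := word_of_ball S (r + 1) w hw
  have hball : ∀ j, wd s 0 j ∈ Ball S (r + 1) := by
    intro j
    by_cases hj : j ≤ r + 1
    · exact Ball_mono S hj (wd_mem_Ball S s h1 j)
    · rw [wd_stable s (r + 1) h2 j (by omega)]
      exact wd_mem_Ball S s h1 (r + 1)
  refine ⟨s, fun j => C.c (wd s 0 j • x), h1, fun j hj => ?_, fun hy => ?_, fun u v huv => ?_⟩
  · simp
  · have := hy (r + 1) hK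
    rw [h3] at this
    simp only [Nat.zero_add] at this
    rw [h3] at this
    exact hne this.symm
  · constructor
    · intro hu j hj
      rw [← huv _ (hball j)]
      exact hu j hj
    · intro hv j hj
      rw [huv _ (hball j)]
      exact hv j hj

end Pool.Agent.Helper34.AG
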