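import Pool.Agent.Helper34.AG.Clean
import Pool.Agent.Helper34.AG.Paths

/-!
# AG-09: the count

For `r < K` choose by `hsep r` points `x_r, y_r` and by `path_of_sep` a path `(s_r, a_r)` of length
`K`; `D_r = PV C s_r a_r 0 K`; by `Cost C S K l` and `clean` (four lanes `p, p', q, r` exist) an element
`t_r ∈ Ball S (2 l)` which acts as the 3-cycle of the lanes at the points of `D_r`:
`C.g (a_r 0) p' • x → C.g (a_r 0) p • x → C.g (a_r 0) r • x →` for `x ∈ D_r`, identity elsewhere,
`a_r 0 = C.c x_r`. By the pigeonhole principle there is a colour `α` such that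
`I = {r < K : a_r 0 = α}` has at least `K / |A|` elements (`Finset.exists_le_card_fiber_of_mul_le_card`
or sum over the fibres; natural division rounds down).
For `E ⊆ I` let `t_E` be the ordered product of the `t_r`, `r ∈ E` (e.g. the product of the list
`(List.range K).map (fun r => if r ∈ E then t_r else 1)`); `t_E ∈ Ball S (K * (2 l))`.
For `x` with `C.c x = α` and `k : ZMod 3` let `pt k x` be the point of the lane `p', p, r` (for
`k = 0, 1, 2`) at `x`; then `t_r • pt k x = pt (k + [x ∈ D_r]) x` for `r ∈ I` (if `x ∉ D_r` then `pt k x`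
is none of the moved points: they are in the same lane and `C.g α _` is injective, or in different
lanes). Hence `t_E • pt 0 x = pt (#{r ∈ E : x ∈ D_r}) x`, and `t_E = t_{E'}` implies
`#{r ∈ E : x ∈ D_r} ≡ #{r ∈ E' : x ∈ D_r} mod 3` for all `x` of colour `α` (points of different
lanes are different). If `E ≠ E'` let `r` be the largest index in exactly one of them and compare
`x = x_r` and `x = y_r` (`y_r` has colour `α` too since `1 ∈ Ball S r`): the indices `> r`
contribute the same to `E` and `E'`; the indices `j < r` have `x_r ∈ D_j ↔ y_r ∈ D_j` (saturation,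
`j + 1 ≤ r`, `Ball_mono`); the index `r` contributes `±1` at `x_r` and `0` at `y_r`. So
`±1 ≡ 0 mod 3`, contradiction. So `E ↦ t_E` is injective on the subsets of `I` and
`2 ^ (K / |A|) ≤ 2 ^ |I| ≤ Nat.card (Ball S (K * (2 l)))` (`finite_Ball`).
-/

set_option autoImplicit false

open Pointwise

namespace Pool.Agent.Helper34.AG

universe u v

variable {Γ : Type u} [Group Γ] {X : Type v} [TopologicalSpace X] [MulAction Γ X] {L : ℕ}

/-- The combinatorial core: subset sums modulo 3 are determined. -/
theorem subset_sums {X : Type v} (K : ℕ) (D : ℕ → Set X) (x y : ℕ → X)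
    [∀ (z : X) (j : ℕ), Decidable (z ∈ D j)]
    (hx : ∀ r, r < K → x r ∈ D r) (hy : ∀ r, r < K → y r ∉ D r)
    (hlow : ∀ r j, r < K → j < r → (x r ∈ D j ↔ y r ∈ D j)) (E E' : Finset ℕ)
    (hE : ∀ r ∈ E, r < K) (hE' : ∀ r ∈ E', r < K)
    (hxe : ∀ r, (r ∈ E ∨ r ∈ E') → (∑ j ∈ E, if x r ∈ D j then (1 : ZMod 3) else 0) =
      ∑ j ∈ E', if x r ∈ D j then (1 : ZMod 3) else 0)
    (hye : ∀ r, (r ∈ E ∨ r ∈ E') → (∑ j ∈ E, if y r ∈ D j then (1 : ZMod 3) else 0) =
      ∑ j ∈ E', if y r ∈ D j then (1 : ZMod 3) else 0) : E = E' := by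
  by_contra hne
  have hsd : (symmDiff E E').Nonempty := by
    rw [Finset.nonempty_iff_ne_empty]
    intro h
    exact hne (symmDiff_eq_bot.1 h)
  obtain ⟨r, hr, hmax⟩ := (symmDiff E E').exists_max_image id hsd
  simp only [id] at hmax
  have hrmem : r ∈ E ∨ r ∈ E' := by
    rw [Finset.mem_symmDiff] at hr
    tauto
  have hrK : r < K := by
    rcases hrmem with h | h
    · exact hE r h
    · exact hE' r h
  have hhigh : ∀ j, r < j → (j ∈ E ↔ j ∈ E') := by
    intro j hj
    by_contra hc
    have : j ∈ symmDiff E E' := by rw [Finset.mem_symmDiff]; tauto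
    exact absurd (hmax j this) (by omega)
  let φ : ℕ → ZMod 3 := fun j => (if x r ∈ D j then (1 : ZMod 3) else 0) -
    (if y r ∈ D j then (1 : ZMod 3) else 0)
  have hφlow : ∀ j, j < r → φ j = 0 := by
    intro j hj
    have := hlow r j hrK hj
    simp only [φ]
    by_cases h : x r ∈ D j
    · rw [if_pos h, if_pos (this.1 h), sub_self]
    · rw [if_neg h, if_neg (fun h' => h (this.2 h')), sub_self]
  have hφr : φ r = 1 := by
    simp only [φ]
    rw [if_pos (hx r hrK), if_neg (hy r hrK), sub_zero]
  have hsum : ∑ j ∈ E, φ j = ∑ j ∈ E', φ j := by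
    simp only [φ, Finset.sum_sub_distrib]
    rw [hxe r hrmem, hye r hrmem]
  have hsplit : ∀ F : Finset ℕ, ∑ j ∈ F, φ j =
      (if r ∈ F then 1 else 0) + ∑ j ∈ F.filter (fun j => r < j), φ j := by
    intro F
    have h1 : ∑ j ∈ F, φ j = ∑ j ∈ F, ((if j = r then (1 : ZMod 3) else 0) +
        (if r < j then φ j else 0)) := by
      apply Finset.sum_congr rfl
      intro j _
      rcases lt_trichotomy j r with h | h | h
      · rw [hφlow j h, if_neg h.ne, if_neg (by omega), add_zero]
      · subst h
        rw [hφr, if_pos rfl, if_neg (lt_irrefl _), add_zero]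
      · rw [if_neg (by omega), if_pos h, zero_add]
    rw [h1, Finset.sum_add_distrib, Finset.sum_filter]
    congr 1
    rw [Finset.sum_ite_eq' F r (fun _ => (1 : ZMod 3))]
  rw [hsplit E, hsplit E'] at hsum
  have hfe : E.filter (fun j => r < j) = E'.filter (fun j => r < j) := by
    ext j
    simp only [Finset.mem_filter]
    constructor
    · rintro ⟨h1, h2⟩; exact ⟨(hhigh j h2).1 h1, h2⟩
    · rintro ⟨h1, h2⟩; exact ⟨(hhigh j h2).2 h1, h2⟩
  rw [hfe, add_left_inj] at hsum
  rw [Finset.mem_symmDiff] at hr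
  rcases hr with ⟨h1, h2⟩ | ⟨h1, h2⟩
  · rw [if_pos h1, if_neg h2] at hsum
    exact absurd hsum (by decide)
  · rw [if_pos h1, if_neg h2] at hsum
    exact absurd hsum (by decide)

/-- ordered products over subsets -/
def prodE (T : ℕ → Γ) (E : Finset ℕ) : ℕ → Γ
  | 0 => 1
  | n + 1 => (if n ∈ E then T n else 1) * prodE T E n

theorem prodE_mem (S : Set Γ) (T : ℕ → Γ) (l : ℕ) (E : Finset ℕ)
    (hT : ∀ r ∈ E, T r ∈ Ball S l) (n : ℕ) : prodE T E n ∈ Ball S (n * l) := by
  induction n with
  | zero => exact one_mem_Ball S _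
  | succ n ih =>
    have h1 : (if n ∈ E then T n else 1) ∈ Ball S l := by
      by_cases h : n ∈ E
      · rw [if_pos h]; exact hT n h
      · rw [if_neg h]; exact one_mem_Ball S l
    have := mul_mem_Ball S h1 ih
    rw [prodE]
    refine Ball_mono S (le_of_eq ?_) this
    ring

theorem count (C : Coding Γ X L) (hL : 4 ≤ L) (S : Set Γ) (hS : S.Finite) (K l : ℕ)
    (hC : Cost C S K l)
    (hsep : ∀ r : ℕ, ∃ x y : X, (∀ w ∈ Ball S r, C.c (w • x) = C.c (w • y)) ∧
      ∃ w ∈ Ball S (r + 1), C.c (w • x) ≠ C.c (w • y)) :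
    2 ^ (K / (@Fintype.card C.A C.fin)) ≤ Nat.card ↥(Ball S (K * (2 * l))) := by
  classical
  letI := C.fin
  choose x y hxy1 hxy2 using hsep
  have hP : ∀ r : ℕ, ∃ (s : ℕ → Γ) (a : ℕ → C.A), r < K →
      ((∀ j, s j ∈ Ball S 1) ∧ x r ∈ PV C s a 0 K ∧ y r ∉ PV C s a 0 K ∧
      ∀ u v : X, (∀ w ∈ Ball S (r + 1), C.c (w • u) = C.c (w • v)) →
        (u ∈ PV C s a 0 K ↔ v ∈ PV C s a 0 K)) := by
    intro r
    by_cases h : r < K
    · obtain ⟨s, a, hsa⟩ := path_of_sep C S r K h (x r) (y r) (hxy2 r)
      exact ⟨s, a, fun _ => hsa⟩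
    · exact ⟨fun _ => 1, fun _ => C.c (x r), fun h' => absurd h' h⟩
  choose s a hsa using hP
  let l0 : Fin L := ⟨0, by omega⟩
  let l1 : Fin L := ⟨1, by omega⟩
  let l2 : Fin L := ⟨2, by omega⟩
  let l3 : Fin L := ⟨3, by omega⟩
  have hT : ∀ r : ℕ, ∃ T : Γ, r < K → (T ∈ Ball S (2 * l) ∧
      Cyc (X := X) T (PV C (s r) (a r) 0 K) (C.g (a r 0) l1) (C.g (a r 0) l0)
        (C.g (a r 0) l3)) := by
    intro r
    by_cases h : r < K
    · obtain ⟨t, ht, hJ⟩ := hC (s r) (a r) (hsa r h).1 0 l0 l2 l3 (by simp [l0, l2])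
        (by simp [l0, l3]) (by simp [l2, l3])
      obtain ⟨t', ht', hJ'⟩ := hC (s r) (a r) (hsa r h).1 0 l1 l2 l3 (by simp [l1, l2])
        (by simp [l1, l3]) (by simp [l2, l3])
      refine ⟨t⁻¹ * t', fun _ => ⟨?_, ?_⟩⟩
      · have := mul_mem_Ball S (inv_mem_Ball S ht) ht'
        rwa [← two_mul] at this
      · exact clean C t t' (s r) (a r) 0 K l0 l1 l2 l3 (by simp [l0, l1, l2, l3]) hJ hJ'
    · exact ⟨1, fun h' => absurd h' h⟩
  choose T hT using hT
  -- pigeonhole
  have hne : (Finset.univ : Finset C.A).Nonempty := ⟨C.c (x 0), Finset.mem_univ _⟩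
  obtain ⟨α, -, hα⟩ := Finset.exists_le_card_fiber_of_mul_le_card_of_maps_to
    (s := Finset.range K) (t := (Finset.univ : Finset C.A)) (f := fun r => a r 0)
    (n := K / Fintype.card C.A) (fun _ _ => Finset.mem_univ _) hne
    (by rw [Finset.card_univ, Finset.card_range]; exact Nat.mul_div_le _ _)
  set I := (Finset.range K).filter (fun r => a r 0 = α) with hI
  have hIK : ∀ r ∈ I, r < K := fun r hr => Finset.mem_range.1 (Finset.mem_filter.1 hr).1
  have hIα : ∀ r ∈ I, a r 0 = α := fun r hr => (Finset.mem_filter.1 hr).2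
  let ln : ZMod 3 → Fin L := fun k => if k = 0 then l1 else if k = 1 then l0 else l3
  have hln0 : ln 0 = l1 := rfl
  have hln1 : ln 1 = l0 := rfl
  have hln2 : ln 2 = l3 := rfl
  have hlninj : Function.Injective ln := by
    have h3 : ∀ k : ZMod 3, k = 0 ∨ k = 1 ∨ k = 2 := by decide
    intro k k' h
    rcases h3 k with rfl | rfl | rfl <;> rcases h3 k' with rfl | rfl | rfl <;>
      first
      | rfl
      | (exfalso; simp only [hln0, hln1, hln2, l0, l1, l3, Fin.mk.injEq] at h; omega)
  -- action of one factor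
  have hact : ∀ r ∈ I, ∀ z : X, C.c z = α → ∀ k : ZMod 3,
      T r • (C.g α (ln k) • z) =
        C.g α (ln (k + if z ∈ PV C (s r) (a r) 0 K then 1 else 0)) • z := by
    intro r hr z hz k
    obtain ⟨hc1, hc2⟩ := (hT r (hIK r hr)).2
    rw [hIα r hr] at hc1 hc2
    by_cases hzD : z ∈ PV C (s r) (a r) 0 K
    · rw [if_pos hzD]
      obtain ⟨b1, b2, b3⟩ := hc1 z hzD
      have h3 : ∀ k : ZMod 3, k = 0 ∨ k = 1 ∨ k = 2 := by decide
      rcases h3 k with rfl | rfl | rfl
      · rw [zero_add, hln0, hln1]; exact b1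
      · have : (1 : ZMod 3) + 1 = 2 := by decide
        rw [this, hln1, hln2]; exact b2
      · have : (2 : ZMod 3) + 1 = 0 := by decide
        rw [this, hln2, hln0]; exact b3
    · rw [if_neg hzD, add_zero]
      have hfix : ∀ i : Fin L, T r • (C.g α i • z) = C.g α i • z := by
        intro i
        refine hc2 _ (fun u hu => ?_)
        have hcu : C.c u = α := by rw [col_start C (s r) (a r) 0 K u hu]; exact hIα r hr
        have hne' : ∀ i' : Fin L, C.g α i • z ≠ C.g α i' • u := by
          intro i' he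
          by_cases hii : i = i'
          · subst hii
            rw [smul_left_cancel_iff] at he
            rw [he] at hzD
            exact hzD hu
          · have m1 : C.g α i • z ∈ C.lane i := by rw [← hz]; exact C.mem z i
            have m2 : C.g α i' • u ∈ C.lane i' := by rw [← hcu]; exact C.mem u i'
            exact lane_ne C hii m1 m2 he
        exact ⟨hne' _, hne' _, hne' _⟩
      exact hfix _
  -- action of the product
  have hactE : ∀ E : Finset ℕ, E ⊆ I → ∀ z : X, C.c z = α → ∀ n : ℕ, ∀ k : ZMod 3,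
      prodE T E n • (C.g α (ln k) • z) = C.g α (ln (k + ∑ j ∈ E.filter (fun j => j < n),
        if z ∈ PV C (s j) (a j) 0 K then (1 : ZMod 3) else 0)) • z := by
    intro E hE z hz n
    induction n with
    | zero =>
      intro k
      simp [prodE]
    | succ n ih =>
      intro k
      rw [prodE, mul_smul, ih k]
      by_cases hn : n ∈ E
      · rw [if_pos hn, hact n (hE hn) z hz]
        have e : E.filter (fun j => j < n + 1) = insert n (E.filter (fun j => j < n)) := by
          ext j
          simp only [Finset.mem_filter, Finset.mem_insert]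
          constructor
          · rintro ⟨h1, h2⟩
            by_cases h : j = n
            · exact Or.inl h
            · exact Or.inr ⟨h1, by omega⟩
          · rintro (rfl | ⟨h1, h2⟩)
            · exact ⟨hn, by omega⟩
            · exact ⟨h1, by omega⟩
        rw [e, Finset.sum_insert (by simp)]
        congr 3
        ring
      · rw [if_neg hn, one_smul]
        have e : E.filter (fun j => j < n + 1) = E.filter (fun j => j < n) := by
          ext j
          simp only [Finset.mem_filter]
          constructor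
          · rintro ⟨h1, h2⟩
            refine ⟨h1, ?_⟩
            have : j ≠ n := by rintro rfl; exact hn h1
            omega
          · rintro ⟨h1, h2⟩; exact ⟨h1, by omega⟩
        rw [e]
  have hfull : ∀ E : Finset ℕ, E ⊆ I → E.filter (fun j => j < K) = E := by
    intro E hE
    apply Finset.filter_true_of_mem
    intro j hj
    exact hIK j (hE hj)
  -- colours of the test points
  have hcx : ∀ r ∈ I, C.c (x r) = α := by
    intro r hr
    rw [col_start C (s r) (a r) 0 K (x r) (hsa r (hIK r hr)).2.1]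
    exact hIα r hr
  have hcy : ∀ r ∈ I, C.c (y r) = α := by
    intro r hr
    have := hxy1 r 1 (one_mem_Ball S r)
    rw [one_smul, one_smul] at this
    rw [← this]
    exact hcx r hr
  have hinj : ∀ E E' : Finset ℕ, E ⊆ I → E' ⊆ I → prodE T E K = prodE T E' K → E = E' := by
    intro E E' hE hE' heq
    have hsumeq : ∀ z : X, C.c z = α →
        (∑ j ∈ E, if z ∈ PV C (s j) (a j) 0 K then (1 : ZMod 3) else 0) =
        ∑ j ∈ E', if z ∈ PV C (s j) (a j) 0 K then (1 : ZMod 3) else 0 := by
      intro z hz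
      have h1 := hactE E hE z hz K 0
      have h2 := hactE E' hE' z hz K 0
      rw [hfull E hE, zero_add] at h1
      rw [hfull E' hE', zero_add, ← heq, h1] at h2
      apply hlninj
      by_contra hne'
      have m1 := C.mem z (ln (∑ j ∈ E, if z ∈ PV C (s j) (a j) 0 K then (1 : ZMod 3) else 0))
      have m2 := C.mem z (ln (∑ j ∈ E', if z ∈ PV C (s j) (a j) 0 K then (1 : ZMod 3) else 0))
      rw [hz] at m1 m2
      exact lane_ne C hne' m1 m2 h2
    refine subset_sums K (fun r => PV C (s r) (a r) 0 K) x y (fun r hr => (hsa r hr).2.1)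
      (fun r hr => (hsa r hr).2.2.1) ?_ E E' (fun r hr => hIK r (hE hr))
      (fun r hr => hIK r (hE' hr)) ?_ ?_
    · intro r j hr hj
      refine (hsa j (by omega)).2.2.2 (x r) (y r) (fun w hw => ?_)
      exact hxy1 r w (Ball_mono S (by omega) hw)
    · intro r hr
      refine hsumeq (x r) (hcx r ?_)
      rcases hr with h | h
      · exact hE h
      · exact hE' h
    · intro r hr
      refine hsumeq (y r) (hcy r ?_)
      rcases hr with h | h
      · exact hE h
      · exact hE' h
  -- count
  have hBf := finite_Ball S hS (K * (2 * l))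
  have hcard : I.powerset.card ≤ hBf.toFinset.card := by
    apply Finset.card_le_card_of_injOn (fun E => prodE T E K)
    · intro E hE
      have hE' := Finset.mem_powerset.1 hE
      simp only [Set.Finite.coe_toFinset]
      exact prodE_mem S T (2 * l) E (fun r hr => (hT r (hIK r (hE' hr))).1) K
    · intro E hE E' hE' h
      exact hinj E E' (Finset.mem_powerset.1 hE) (Finset.mem_powerset.1 hE') h
  rw [Finset.card_powerset] at hcard
  have hNat : Nat.card ↥(Ball S (K * (2 * l))) = hBf.toFinset.card :=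
    Nat.card_eq_card_finite_toFinset hBf
  rw [hNat]
  calc 2 ^ (K / Fintype.card C.A) ≤ 2 ^ I.card := Nat.pow_le_pow_right (by norm_num) hα
    _ ≤ hBf.toFinset.card := hcard

end Pool.Agent.Helper34.AG
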