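import Mathlib

/-!
# Project AG (MP_98e9ed_al): definitions

The gap conjecture for groups containing an alternating full group (helper34).
Memo: /team-store/memo_MP_98e9ed_al_helper34.md
-/

set_option autoImplicit false

open Pointwise

namespace Pool.Agent.Helper34.AG

universe u v

/-- `Γ` contains the alternating full group of its action on `X`: for every clopen `U` and all
`g h : Γ` such that `U`, `g U`, `h U` are pairwise disjoint some element of `Γ` acts as the local
3-cycle `x ↦ g x ↦ h x ↦ x` (`x ∈ U`) and trivially elsewhere. -/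
def ContainsAlt (Γ : Type u) [Group Γ] (X : Type v) [TopologicalSpace X] [MulAction Γ X] : Prop :=
  ∀ (U : Set X) (g h : Γ), IsClopen U → Disjoint U (g • U) → Disjoint U (h • U) →
    Disjoint (g • U) (h • U) →
    ∃ t : Γ, (∀ x ∈ U, t • x = g • x ∧ t • (g • x) = h • x ∧ t • (h • x) = x) ∧
      ∀ x : X, x ∉ U → x ∉ g • U → x ∉ h • U → t • x = x

/-- The ball of radius `n`, in the form used by the frozen statement. -/
def Ball {Γ : Type u} [Group Γ] (S : Set Γ) (n : ℕ) : Set Γ := (({1} : Set Γ) ∪ S ∪ S⁻¹) ^ n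

/-- `t` acts as the local 3-cycle `f x ↦ g x ↦ h x ↦ f x` (`x ∈ V`) and trivially elsewhere. -/
def Cyc {Γ : Type u} [Group Γ] {X : Type v} [MulAction Γ X] (t : Γ) (V : Set X) (f g h : Γ) :
    Prop :=
  (∀ x ∈ V, t • (f • x) = g • x ∧ t • (g • x) = h • x ∧ t • (h • x) = f • x) ∧
  ∀ z : X, (∀ x ∈ V, z ≠ f • x ∧ z ≠ g • x ∧ z ≠ h • x) → t • z = z

/-- A coding of `X` with `L` lanes: a locally constant colouring `c` with finitely many colours,
pairwise disjoint sets `lane i`, and group elements `g a i` which move every point `x` of colour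
`a` into the lane `i`. -/
structure Coding (Γ : Type u) [Group Γ] (X : Type v) [TopologicalSpace X] [MulAction Γ X]
    (L : ℕ) where
  A : Type
  fin : Fintype A
  c : X → A
  clopen : ∀ a, IsClopen (c ⁻¹' {a})
  lane : Fin L → Set X
  disj : ∀ i j, i ≠ j → Disjoint (lane i) (lane j)
  g : A → Fin L → Γ
  mem : ∀ x i, g (c x) i • x ∈ lane i
  two : ∃ x y, c x ≠ c y

/-- `wd s i j = s (i+j-1) * ... * s (i+1) * s i`. -/
def wd {Γ : Type u} [Group Γ] (s : ℕ → Γ) (i : ℕ) : ℕ → Γ
  | 0 => 1
  | j + 1 => s (i + j) * wd s i j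

section
variable {Γ : Type u} [Group Γ] {X : Type v} [TopologicalSpace X] [MulAction Γ X] {L : ℕ}

/-- The path cylinder: the points whose colours along the path `s i, s (i+1), ...` (`n` steps)
are `a i, ..., a (i+n)`. -/
def PV (C : Coding Γ X L) (s : ℕ → Γ) (a : ℕ → C.A) (i n : ℕ) : Set X :=
  {x | ∀ j, j ≤ n → C.c (wd s i j • x) = a (i + j)}

/-- `t` realises the conditional transport: for `x` in the path cylinder the 3-cycle
(lane `p` at `x`) ↦ (lane `q` at the end point) ↦ (lane `r` at `x`) ↦ (lane `p` at `x`). -/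
def J (C : Coding Γ X L) (t : Γ) (s : ℕ → Γ) (a : ℕ → C.A) (i n : ℕ) (p q r : Fin L) : Prop :=
  Cyc (X := X) t (PV C s a i n) (C.g (a i) p) (C.g (a (i + n)) q * wd s i n) (C.g (a i) r)

/-- All conditional transports along paths of length `n` (letters in the ball of radius `1`) are
realised in the ball of radius `l`. -/
def Cost (C : Coding Γ X L) (S : Set Γ) (n l : ℕ) : Prop :=
  ∀ (s : ℕ → Γ) (a : ℕ → C.A), (∀ j, s j ∈ Ball S 1) → ∀ (i : ℕ) (p q r : Fin L),
    p ≠ q → p ≠ r → q ≠ r → ∃ t ∈ Ball S l, J C t s a i n p q r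

/-- `N` moves the lane `q1` exactly along the path cylinder `(i, m)` to the lane `q`, and it fixes
all points outside the lanes in `F`. -/
def Tr (C : Coding Γ X L) (N : Γ) (s : ℕ → Γ) (a : ℕ → C.A) (i m : ℕ) (q1 q : Fin L)
    (F : Finset (Fin L)) : Prop :=
  (∀ y ∈ PV C s a i m, N • (C.g (a i) q1 • y) = C.g (a (i + m)) q • (wd s i m • y)) ∧
  (∀ z ∈ C.lane q1, (∀ y ∈ PV C s a i m, z ≠ C.g (a i) q1 • y) → N • z = z) ∧
  (∀ z : X, (∀ l ∈ F, z ∉ C.lane l) → N • z = z)

end

end Pool.Agent.Helper34.AG
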