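import Pool.Agent.Helper34.AG.Defs

/-!
# AG-10: existence of codings

`disjoint_clopens`: an infinite compact Hausdorff totally disconnected space has `L` pairwise
disjoint nonempty clopen sets: take `L` distinct points (`Infinite.exists_subset_card_eq` or an
embedding `Fin L ↪ X`), separate each pair `i ≠ j` by a clopen `W i j ∋ x i`, `x j ∉ W i j`
(`isTotallySeparated`/`exists_isClopen_of_totally_separated`), put `V i = ⋂_{j ≠ i} W i j` and make
them disjoint: `U i = V i \ ⋃_{j < i} V j`... it is safer to use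
`U i = (⋂_{j≠i} W i j) ∩ ⋂_{j≠i} (W j i)ᶜ` (then `x i ∈ U i`, since `x i ∉ W j i`, and `U i ∩ U j = ∅`, since
`U i ⊆ W i j` and `U j ⊆ (W i j)ᶜ`).

`exists_coding`: let `X_1..X_L` be as above. For every `x` and `i` there is `γ x i : Γ` with
`γ x i • x ∈ X_i` (minimality, `IsOpen.exists_smul_mem`). The sets `U x = {y | ∀ i, γ x i • y ∈ X_i}` are clopen and cover
`X`; take a finite subcover `x_1..x_n`; colour of `y` = (the least `j` with `y ∈ U x_j`, the
truth value of `y ∈ X_0`) in `Fin n × Bool`, `g (j, b) i = γ x_j i`. Two colours: a point of `X_0`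
and a point of `X_1` (`2 ≤ L`).
-/

set_option autoImplicit false

open Pointwise

namespace Pool.Agent.Helper34.AG

universe u v

theorem disjoint_clopens (X : Type v) [TopologicalSpace X] [CompactSpace X] [T2Space X]
    [TotallyDisconnectedSpace X] [Infinite X] (L : ℕ) :
    ∃ V : Fin L → Set X, (∀ i, IsClopen (V i)) ∧ (∀ i, (V i).Nonempty) ∧
      ∀ i j, i ≠ j → Disjoint (V i) (V j) := by
  obtain ⟨e⟩ : Nonempty (Fin L ↪ X) := ⟨(Fin.valEmbedding).trans (Infinite.natEmbedding X)⟩
  obtain ⟨V, h1, h2, -, -, h5⟩ := exists_clopen_partition_of_clopen_cover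
    (X := X) (I := Fin L) (Z := fun i => {e i}) (D := fun _ => Set.univ)
    (fun i => isClosed_singleton) (fun i => isClopen_univ) (fun i => Set.subset_univ _)
    (by
      intro i _ j _ hij
      simp only [Function.onFun, Set.disjoint_singleton]
      exact fun h => hij (e.injective h))
  exact ⟨V, h1, fun i => ⟨e i, h2 i rfl⟩, fun i j hij => h5 (Set.mem_univ i) (Set.mem_univ j) hij⟩

theorem exists_coding {Γ : Type u} [Group Γ] {X : Type v} [TopologicalSpace X] [MulAction Γ X]
    [CompactSpace X] [T2Space X] [TotallyDisconnectedSpace X] [Infinite X]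
    [ContinuousConstSMul Γ X] [MulAction.IsMinimal Γ X] (L : ℕ) (hL : 2 ≤ L) :
    Nonempty (Coding Γ X L) := by
  classical
  obtain ⟨V, hV, hne, hd⟩ := disjoint_clopens X L
  have h1 : ∀ (x : X) (i : Fin L), ∃ γ : Γ, γ • x ∈ V i :=
    fun x i => (hV i).isOpen.exists_smul_mem Γ x (hne i)
  choose γ hγ using h1
  have hUc : ∀ x : X, IsClopen {y : X | ∀ i, γ x i • y ∈ V i} := by
    intro x
    have e : {y : X | ∀ i, γ x i • y ∈ V i} = ⋂ i, (fun y : X => γ x i • y) ⁻¹' (V i) := by
      ext y
      simp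
    rw [e]
    exact isClopen_iInter_of_finite (fun i => (hV i).preimage (continuous_const_smul _))
  obtain ⟨I, hI⟩ := isCompact_univ.elim_finite_subcover
    (fun x : X => {y : X | ∀ i, γ x i • y ∈ V i}) (fun x => (hUc x).isOpen)
    (fun x _ => Set.mem_iUnion.2 ⟨x, fun i => hγ x i⟩)
  -- enumerate the finite set `I`
  let e := I.equivFin
  have hcov : ∀ y : X, ∃ j : Fin I.card, ∀ i, γ (e.symm j : X) i • y ∈ V i := by
    intro y
    have hy := hI (Set.mem_univ y)
    simp only [Set.mem_iUnion] at hy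
    obtain ⟨x, hx, hy⟩ := hy
    refine ⟨e ⟨x, hx⟩, ?_⟩
    rw [Equiv.symm_apply_apply]
    exact hy
  -- the least such index
  have hdec : ∀ y : X, ∃ j : Fin I.card, (∀ i, γ (e.symm j : X) i • y ∈ V i) ∧
      ∀ k : Fin I.card, k < j → ¬ ∀ i, γ (e.symm k : X) i • y ∈ V i := by
    intro y
    obtain ⟨j, hj, hmin⟩ := (Set.toFinite {j : Fin I.card |
      ∀ i, γ (e.symm j : X) i • y ∈ V i}).exists_minimal (hcov y)
    refine ⟨j, hj, fun k hk hk' => ?_⟩
    exact absurd (hmin hk' hk.le) (not_le.2 hk)
  choose f hf1 hf2 using hdec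
  have hfclopen : ∀ j : Fin I.card, IsClopen {y : X | f y = j} := by
    intro j
    have e' : {y : X | f y = j} = {y : X | ∀ i, γ (e.symm j : X) i • y ∈ V i} ∩
        ⋂ k : {k : Fin I.card // k < j}, {y : X | ∀ i, γ (e.symm k.1 : X) i • y ∈ V i}ᶜ := by
      ext y
      simp only [Set.mem_ofPred_eq, Set.mem_inter_iff, Set.mem_iInter, Set.mem_compl_iff]
      constructor
      · rintro rfl
        exact ⟨hf1 y, fun k => hf2 y k.1 k.2⟩
      · rintro ⟨ha, hb⟩
        rcases lt_trichotomy (f y) j with h | h | h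
        · exact absurd (hf1 y) (hb ⟨f y, h⟩)
        · exact h
        · exact absurd ha (hf2 y j h)
    rw [e']
    exact (hUc _).inter (isClopen_iInter_of_finite (fun k => (hUc _).compl))
  let i0 : Fin L := ⟨0, by omega⟩
  let i1 : Fin L := ⟨1, by omega⟩
  refine ⟨{
    A := Fin I.card × Bool
    fin := inferInstance
    c := fun y => (f y, decide (y ∈ V i0))
    clopen := ?_
    lane := V
    disj := hd
    g := fun a i => γ (e.symm a.1 : X) i
    mem := fun x i => hf1 x i
    two := ?_ }⟩
  · rintro ⟨j, b⟩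
    have hb : IsClopen {y : X | decide (y ∈ V i0) = b} := by
      cases b with
      | true =>
        have : {y : X | decide (y ∈ V i0) = true} = V i0 := by ext y; simp
        rw [this]; exact hV i0
      | false =>
        have : {y : X | decide (y ∈ V i0) = false} = (V i0)ᶜ := by ext y; simp
        rw [this]; exact (hV i0).compl
    have e' : (fun y => (f y, decide (y ∈ V i0))) ⁻¹' {(j, b)} =
        {y : X | f y = j} ∩ {y : X | decide (y ∈ V i0) = b} := by
      ext y
      simp [Prod.ext_iff]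
    rw [e']
    exact (hfclopen j).inter hb
  · obtain ⟨x, hx⟩ := hne i0
    obtain ⟨y, hy⟩ := hne i1
    refine ⟨x, y, fun h => ?_⟩
    have h2 := congrArg Prod.snd h
    have hy0 : y ∉ V i0 := fun h' => Set.disjoint_left.1 (hd i0 i1 (by
      intro h; simp [i0, i1] at h)) h' hy
    simp [hx, hy0] at h2

end Pool.Agent.Helper34.AG
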