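import Pool.Agent.Helper34.AG.Defs

/-!
# AG-11: reduction to minimal actions

`exists_minimal_set`: Zorn on the nonempty closed invariant subsets (intersection of a chain of
nonempty compact sets is nonempty, e.g.
`IsCompact.nonempty_sInter_of_directed_nonempty_isCompact_isClosed`, as in
`IsClosed.exists_minimal_nonempty_closed_subset`).

`reduce`: `Y = ↥M` (use `SubMulAction` or define the action by restriction), compact as a closed
subset. Minimality: the closure (in `X`) of the orbit of `y ∈ M` is closed, invariant, nonempty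
and contained in `M`, so it is `M`. Orbits in `Y` are infinite since they map injectively onto the orbits in
`X`. `ContainsAlt Γ Y`: let `U ⊆ Y` be clopen with `U, gU, hU` pairwise disjoint.
There is a clopen `U₂ ⊆ X` with `U₂ ∩ M = U` (as subsets of `X`): `U` is compact and there is an open `O` of
`X` with `O ∩ M = U`; by `compact_exists_isClopen_in_isOpen`/basis and compactness of `U` there is a clopen `U₂` with
`U ⊆ U₂ ⊆ O`. Put `U' = U₂ \ (g⁻¹ • U₂ ∪ h⁻¹ • U₂ ∪ (g⁻¹ * h) • U₂)`. It is clopen, and `U', gU', hU'`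
are pairwise disjoint: `x = g y` with `x, y ∈ U'` gives `y ∈ g⁻¹ • U₂`; `g x = h y` gives
`x ∈ (g⁻¹ h) • U₂`. And `U' ∩ M = U`: if `x ∈ U` and `g x ∈ U₂` then `g x ∈ U₂ ∩ M = U`, so
`g x ∈ U ∩ gU = ∅`; similarly `h`; if `g x = h y`, `y ∈ U₂`, then `y = h⁻¹ g x ∈ M`, so `y ∈ U`
and `g x ∈ gU ∩ hU = ∅`. The element `t` for `(U', g, h)` works for `(U, g, h)` on `Y`.
-/

set_option autoImplicit false

open Pointwise

namespace Pool.Agent.Helper34.AG

universe u v

theorem exists_minimal_set (Γ : Type u) [Group Γ] (X : Type v) [TopologicalSpace X]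
    [MulAction Γ X] [CompactSpace X] [Nonempty X] :
    ∃ M : Set X, IsClosed M ∧ M.Nonempty ∧ (∀ (γ : Γ), ∀ x ∈ M, γ • x ∈ M) ∧
      ∀ N : Set X, IsClosed N → N.Nonempty → (∀ (γ : Γ), ∀ x ∈ N, γ • x ∈ N) → N ⊆ M →
        N = M := by
  obtain ⟨M, hM⟩ := zorn_superset
    {M : Set X | IsClosed M ∧ M.Nonempty ∧ ∀ (γ : Γ), ∀ x ∈ M, γ • x ∈ M}
    (fun c hc hchain => by
      by_cases hcne : c.Nonempty
      · refine ⟨⋂₀ c, ⟨?_, ?_, ?_⟩, fun s hs => Set.sInter_subset_of_mem hs⟩
        · exact isClosed_sInter (fun s hs => (hc hs).1)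
        · have : Nonempty ↥c := hcne.to_subtype
          rw [Set.sInter_eq_iInter]
          apply IsCompact.nonempty_iInter_of_directed_nonempty_isCompact_isClosed
          · rintro ⟨U, hU⟩ ⟨U', hU'⟩
            rcases hchain.total hU hU' with h | h
            · exact ⟨⟨U, hU⟩, subset_rfl, h⟩
            · exact ⟨⟨U', hU'⟩, h, subset_rfl⟩
          · exact fun s => (hc s.2).2.1
          · exact fun s => (hc s.2).1.isCompact
          · exact fun s => (hc s.2).1
        · intro γ x hx s hs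
          exact (hc hs).2.2 γ x (hx s hs)
      · refine ⟨Set.univ, ⟨isClosed_univ, Set.univ_nonempty, fun _ _ _ => trivial⟩,
          fun s hs => (hcne ⟨s, hs⟩).elim⟩)
  obtain ⟨h1, h2, h3⟩ := hM.prop
  refine ⟨M, h1, h2, h3, fun N hN hNe hNi hNM => ?_⟩
  exact hM.eq_of_le ⟨hN, hNe, hNi⟩ hNM

theorem reduce (Γ : Type u) [Group Γ] (X : Type v) [TopologicalSpace X] [MulAction Γ X]
    [CompactSpace X] [T2Space X] [TotallyDisconnectedSpace X] [Nonempty X]
    [ContinuousConstSMul Γ X] (hinf : ∀ x : X, (MulAction.orbit Γ x).Infinite)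
    (halt : ContainsAlt Γ X) :
    ∃ (Y : Type v) (_ : TopologicalSpace Y) (_ : MulAction Γ Y), CompactSpace Y ∧ T2Space Y ∧
      TotallyDisconnectedSpace Y ∧ Nonempty Y ∧ ContinuousConstSMul Γ Y ∧
      MulAction.IsMinimal Γ Y ∧ (∀ y : Y, (MulAction.orbit Γ y).Infinite) ∧
      ContainsAlt Γ Y := by
  obtain ⟨M, hMc, hMne, hMi, hMmin⟩ := exists_minimal_set Γ X
  let N : SubMulAction Γ X := { carrier := M, smul_mem' := fun γ x hx => hMi γ x hx }
  have hcoe : ∀ (γ : Γ) (y : N), ((γ • y : N) : X) = γ • (y : X) := fun γ y => rfl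
  have hcont : ContinuousConstSMul Γ N := ⟨fun γ => by
    refine Continuous.subtype_mk ?_ _
    exact (continuous_const_smul γ).comp continuous_subtype_val⟩
  have hcomp : CompactSpace N := isCompact_iff_compactSpace.1 hMc.isCompact
  have hne : Nonempty N := hMne.to_subtype
  have hmin : MulAction.IsMinimal Γ N := by
    constructor
    intro y
    have h1 : closure (MulAction.orbit Γ (y : X)) = M := by
      refine hMmin _ isClosed_closure ⟨(y : X), subset_closure (MulAction.mem_orbit_self _)⟩ ?_ ?_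
      · intro γ x hx
        have := image_closure_subset_closure_image (f := fun u : X => γ • u)
          (continuous_const_smul γ) (s := MulAction.orbit Γ (y : X))
        have hx' := this ⟨x, hx, rfl⟩
        refine closure_mono ?_ hx'
        rintro _ ⟨_, ⟨δ, rfl⟩, rfl⟩
        exact ⟨γ * δ, by simp [mul_smul]⟩
      · refine closure_minimal ?_ hMc
        rintro _ ⟨δ, rfl⟩
        exact hMi δ _ y.2
    rw [dense_iff_closure_eq, Set.eq_univ_iff_forall]
    intro z
    rw [closure_subtype]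
    have hz : (z : X) ∈ closure (MulAction.orbit Γ (y : X)) := by rw [h1]; exact z.2
    refine closure_mono ?_ hz
    rintro _ ⟨δ, rfl⟩
    exact ⟨δ • y, MulAction.mem_orbit _ _, rfl⟩
  have horb : ∀ y : N, (MulAction.orbit Γ y).Infinite := by
    intro y hfin
    apply hinf (y : X)
    have := hfin.image (fun z : N => (z : X))
    refine this.subset ?_
    rintro _ ⟨δ, rfl⟩
    exact ⟨δ • y, MulAction.mem_orbit _ _, rfl⟩
  refine ⟨N, inferInstance, inferInstance, hcomp, inferInstance, inferInstance, hne, hcont, hmin,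
    horb, ?_⟩
  intro U g h hU d1 d2 d3
  -- image of `U` in `X`
  have hUc : IsClosed ((fun z : N => (z : X)) '' U) :=
    (hMc.isClosedEmbedding_subtypeVal.isClosedMap) U hU.isClosed
  obtain ⟨O, hO, hOU⟩ := isOpen_induced_iff.1 hU.isOpen
  obtain ⟨U2, hU2, hs1, hs2⟩ := exists_clopen_of_closed_subset_open hUc hO (by
    rintro _ ⟨z, hz, rfl⟩
    rw [← hOU] at hz
    exact hz)
  have mem2 : ∀ z : N, (z : X) ∈ U2 → z ∈ U := by
    intro z hz
    rw [← hOU]
    exact hs2 hz
  have mem1 : ∀ z : N, z ∈ U → (z : X) ∈ U2 := fun z hz => hs1 ⟨z, hz, rfl⟩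
  -- shrink
  let U' : Set X := U2 ∩ (((fun x : X => g • x) ⁻¹' U2)ᶜ ∩ (((fun x : X => h • x) ⁻¹' U2)ᶜ ∩
    ((fun x : X => (h⁻¹ * g) • x) ⁻¹' U2)ᶜ))
  have hU' : IsClopen U' := hU2.inter
    (((hU2.preimage (continuous_const_smul g)).compl).inter
    (((hU2.preimage (continuous_const_smul h)).compl).inter
    ((hU2.preimage (continuous_const_smul (h⁻¹ * g))).compl)))
  have inU' : ∀ z : N, z ∈ U → (z : X) ∈ U' := by
    intro z hz
    refine ⟨mem1 z hz, ?_, ?_, ?_⟩
    · intro hc
      have : g • z ∈ U := mem2 (g • z) hc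
      exact Set.disjoint_left.1 d1 this ⟨z, hz, rfl⟩
    · intro hc
      have : h • z ∈ U := mem2 (h • z) hc
      exact Set.disjoint_left.1 d2 this ⟨z, hz, rfl⟩
    · intro hc
      have : (h⁻¹ * g) • z ∈ U := mem2 ((h⁻¹ * g) • z) hc
      refine Set.disjoint_left.1 d3 ⟨z, hz, rfl⟩ ⟨(h⁻¹ * g) • z, this, ?_⟩
      simp [mul_smul]
  have fromU' : ∀ z : N, (z : X) ∈ U' → z ∈ U := fun z hz => mem2 z hz.1
  obtain ⟨t, ht1, ht2⟩ := halt U' g h hU'
    (by
      rw [Set.disjoint_left]
      rintro _ hx ⟨y, hy, rfl⟩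
      exact hy.2.1 hx.1)
    (by
      rw [Set.disjoint_left]
      rintro _ hx ⟨y, hy, rfl⟩
      exact hy.2.2.1 hx.1)
    (by
      rw [Set.disjoint_left]
      rintro _ ⟨y, hy, rfl⟩ ⟨z, hz, he⟩
      apply hy.2.2.2
      have : (h⁻¹ * g) • y = z := by
        rw [mul_smul, inv_smul_eq_iff]
        exact he.symm
      show (h⁻¹ * g) • y ∈ U2
      rw [this]
      exact hz.1)
  refine ⟨t, fun z hz => ?_, fun z z1 z2 z3 => ?_⟩
  · obtain ⟨a1, a2, a3⟩ := ht1 (z : X) (inU' z hz)
    exact ⟨Subtype.ext a1, Subtype.ext a2, Subtype.ext a3⟩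
  · apply Subtype.ext
    refine ht2 (z : X) (fun hz => z1 (fromU' z hz)) ?_ ?_
    · rintro ⟨y, hy, he⟩
      have hyM : y ∈ M := by
        have : g⁻¹ • (z : X) = y := by rw [inv_smul_eq_iff]; exact he.symm
        rw [← this]
        exact hMi g⁻¹ _ z.2
      exact z2 ⟨⟨y, hyM⟩, fromU' ⟨y, hyM⟩ hy, Subtype.ext he⟩
    · rintro ⟨y, hy, he⟩
      have hyM : y ∈ M := by
        have : h⁻¹ • (z : X) = y := by rw [inv_smul_eq_iff]; exact he.symm
        rw [← this]
        exact hMi h⁻¹ _ z.2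
      exact z3 ⟨⟨y, hyM⟩, fromU' ⟨y, hyM⟩ hy, Subtype.ext he⟩

end Pool.Agent.Helper34.AG
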