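import Pool.Agent.Helper34.AG.Words

/-!
# AG-07: separation at every radius

Suppose not: then for some `r`, `x ~ y :⇔ ∀ w ∈ Ball S r, C.c (w • x) = C.c (w • y)` implies the
same for `Ball S (r+1)`. Then `x ~ y` implies `σ • x ~ σ • y` for `σ ∈ Ball S 1` (`w * σ ∈ Ball S
(r+1)`), hence `γ • x ~ γ • y` for all `γ : Γ` (`exists_mem_Ball`, induction on the radius with
`mem_Ball_succ'`). The classes are open (finite intersections of clopen sets, `finite_Ball`), and
`~` is an equivalence relation. By `C.two` (and `1 ∈ Ball S r`) there are two classes. Take any `x`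
and a point `y` not equivalent to `x`
(one of the two points of `C.two`). By minimality there is `g` with `g • x ~ y`
(`IsOpen.exists_smul_mem`), so `g • x` is not equivalent to `x`; in particular `g • x ≠ x`. As the
orbit of `x` is infinite there is `h` with `h • x ∉ {x, g • x}`. The class of `x` is open and nonempty and
the space has no isolated points: it contains a point `z ∉ {x, g • x, h • x}`. (`noIsolated`: if
`{x}` were open, then by minimality every orbit meets it, so `X` is one orbit and all points are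
open, so `X` is discrete and compact, hence finite, but the orbits are infinite. From this: a nonempty
open set is infinite, e.g. via `PerfectSpace`/`infinite_of_mem_nhds` or by removing finitely many
points.)
Choose a clopen `U ∋ x` with `U, g • U, h • U` pairwise disjoint and `z` in none of them: separate
the four distinct points `x, g x, h x, z` by disjoint clopen sets `W₁, W₂, W₃` not containing `z`
(compact, Hausdorff, totally disconnected: `isTopologicalBasis_isClopen`/
`compact_exists_isClopen_in_isOpen`), `U = W₁ ∩ g⁻¹ • W₂ ∩ h⁻¹ • W₃`. The element `t` of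
`ContainsAlt` has `t • x = g • x` and `t • z = z`. From `x ~ z`: `g • x = t • x ~ t • z = z ~ x`,
contradiction.
-/

set_option autoImplicit false

open Pointwise

namespace Pool.Agent.Helper34.AG

universe u v

variable {Γ : Type u} [Group Γ] {X : Type v} [TopologicalSpace X] [MulAction Γ X] {L : ℕ}

theorem noIsolated [CompactSpace X] [T2Space X] [ContinuousConstSMul Γ X]
    [MulAction.IsMinimal Γ X] (hinf : ∀ x : X, (MulAction.orbit Γ x).Infinite) (O : Set X)
    (hO : IsOpen O) (hne : O.Nonempty) : O.Infinite := by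
  intro hfin
  obtain ⟨x, hx⟩ := hne
  have hxo : IsOpen ({x} : Set X) := by
    have e : ({x} : Set X) = O \ (O \ {x}) := by
      ext y
      simp only [Set.mem_singleton_iff, Set.mem_sdiff]
      constructor
      · rintro rfl; exact ⟨hx, fun h => h.2 rfl⟩
      · rintro ⟨h1, h2⟩; by_contra h; exact h2 ⟨h1, h⟩
    rw [e]
    exact hO.sdiff (hfin.subset Set.sdiff_subset).isClosed
  have hall : ∀ y : X, IsOpen ({y} : Set X) := by
    intro y
    obtain ⟨c, hc⟩ := hxo.exists_smul_mem Γ y ⟨x, rfl⟩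
    have e : ({y} : Set X) = (fun u : X => c • u) ⁻¹' {x} := by
      ext u
      simp only [Set.mem_singleton_iff, Set.mem_preimage]
      rw [Set.mem_singleton_iff] at hc
      constructor
      · rintro rfl; exact hc
      · intro h; rw [← hc] at h; exact smul_left_cancel c h
    rw [e]
    exact hxo.preimage (continuous_const_smul c)
  have : DiscreteTopology X := discreteTopology_iff_isOpen_singleton.2 hall
  have : Finite X := finite_of_compact_of_discrete
  exact hinf x (Set.toFinite _)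

theorem small_clopen [CompactSpace X] [T2Space X] [TotallyDisconnectedSpace X]
    [ContinuousConstSMul Γ X] (x z : X) (g h : Γ) (h1 : g • x ≠ x) (h2 : h • x ≠ x)
    (h3 : g • x ≠ h • x) (hz1 : z ≠ x) (hz2 : z ≠ g • x) (hz3 : z ≠ h • x) :
    ∃ U : Set X, IsClopen U ∧ x ∈ U ∧ Disjoint U (g • U) ∧ Disjoint U (h • U) ∧
      Disjoint (g • U) (h • U) ∧ z ∉ U ∧ z ∉ g • U ∧ z ∉ h • U := by
  have : TotallySeparatedSpace X := inferInstance
  have sep : ∀ a b : X, a ≠ b → ∃ U : Set X, IsClopen U ∧ a ∈ U ∧ b ∉ U := fun a b hab => by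
    obtain ⟨U, hU, ha, hb⟩ := exists_isClopen_of_totally_separated hab
    exact ⟨U, hU, ha, hb⟩
  obtain ⟨A1, hA1, a1, b1⟩ := sep x (g • x) (Ne.symm h1)
  obtain ⟨A2, hA2, a2, b2⟩ := sep x (h • x) (Ne.symm h2)
  obtain ⟨A3, hA3, a3, b3⟩ := sep x z (Ne.symm hz1)
  obtain ⟨B1, hB1, c1, d1⟩ := sep (g • x) (h • x) h3
  obtain ⟨B2, hB2, c2, d2⟩ := sep (g • x) z (Ne.symm hz2)
  obtain ⟨D1, hD1, e1, f1⟩ := sep (h • x) z (Ne.symm hz3)
  set A := A1 ∩ A2 ∩ A3 with hA
  set B := B1 ∩ B2 ∩ Aᶜ with hB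
  set D := D1 ∩ Aᶜ ∩ Bᶜ with hD
  have cA : IsClopen A := (hA1.inter hA2).inter hA3
  have cB : IsClopen B := (hB1.inter hB2).inter cA.compl
  have cD : IsClopen D := (hD1.inter cA.compl).inter cB.compl
  set U := A ∩ (fun y : X => g • y) ⁻¹' B ∩ (fun y : X => h • y) ⁻¹' D with hU
  have cU : IsClopen U := (cA.inter (cB.preimage (continuous_const_smul g))).inter
    (cD.preimage (continuous_const_smul h))
  have hgxA : g • x ∉ A := fun hh => b1 hh.1.1
  have hhxA : h • x ∉ A := fun hh => b2 hh.1.2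
  have hzA : z ∉ A := fun hh => b3 hh.2
  have hgxB : g • x ∈ B := ⟨⟨c1, c2⟩, hgxA⟩
  have hhxB : h • x ∉ B := fun hh => d1 hh.1.1
  have hzB : z ∉ B := fun hh => d2 hh.1.2
  have hzD : z ∉ D := fun hh => f1 hh.1.1
  have sA : U ⊆ A := fun y hy => hy.1.1
  have sB : g • U ⊆ B := by rintro _ ⟨y, hy, rfl⟩; exact hy.1.2
  have sD : h • U ⊆ D := by rintro _ ⟨y, hy, rfl⟩; exact hy.2
  have dAB : Disjoint A B := Set.disjoint_left.2 (fun y hy hy' => hy'.2 hy)
  have dAD : Disjoint A D := Set.disjoint_left.2 (fun y hy hy' => hy'.1.2 hy)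
  have dBD : Disjoint B D := Set.disjoint_left.2 (fun y hy hy' => hy'.2 hy)
  exact ⟨U, cU, ⟨⟨⟨⟨a1, a2⟩, a3⟩, hgxB⟩, ⟨⟨e1, hhxA⟩, hhxB⟩⟩, dAB.mono sA sB, dAD.mono sA sD,
    dBD.mono sB sD, fun hh => hzA (sA hh), fun hh => hzB (sB hh), fun hh => hzD (sD hh)⟩

theorem separation [CompactSpace X] [T2Space X] [TotallyDisconnectedSpace X]
    [ContinuousConstSMul Γ X] [MulAction.IsMinimal Γ X]
    (hinf : ∀ x : X, (MulAction.orbit Γ x).Infinite) (halt : ContainsAlt Γ X)
    (C : Coding Γ X L) (S : Set Γ) (hS : S.Finite) (hgen : Subgroup.closure S = ⊤) (r : ℕ) :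
    ∃ x y : X, (∀ w ∈ Ball S r, C.c (w • x) = C.c (w • y)) ∧
      ∃ w ∈ Ball S (r + 1), C.c (w • x) ≠ C.c (w • y) := by
  by_contra hcon
  push Not at hcon
  have step : ∀ σ ∈ Ball S 1, ∀ x y : X, (∀ w ∈ Ball S r, C.c (w • x) = C.c (w • y)) →
      ∀ w ∈ Ball S r, C.c (w • (σ • x)) = C.c (w • (σ • y)) := by
    intro σ hσ x y hxy w hw
    have := hcon x y hxy (w * σ) (mul_mem_Ball S hw hσ)
    rwa [mul_smul, mul_smul] at this
  have inv : ∀ n : ℕ, ∀ γ ∈ Ball S n, ∀ x y : X,
      (∀ w ∈ Ball S r, C.c (w • x) = C.c (w • y)) →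
      ∀ w ∈ Ball S r, C.c (w • (γ • x)) = C.c (w • (γ • y)) := by
    intro n
    induction n with
    | zero =>
      intro γ hγ x y hxy
      unfold Ball at hγ
      rw [pow_zero, Set.mem_one] at hγ
      rw [hγ, one_smul, one_smul]
      exact hxy
    | succ n ih =>
      intro γ hγ x y hxy
      obtain ⟨σ, hσ, y', hy', rfl⟩ := (mem_Ball_succ' S n γ).1 hγ
      rw [mul_smul, mul_smul]
      exact step σ hσ _ _ (ih y' hy' x y hxy)
  have hopen : ∀ x : X, IsOpen {y : X | ∀ w ∈ Ball S r, C.c (w • x) = C.c (w • y)} := by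
    intro x
    have e : {y : X | ∀ w ∈ Ball S r, C.c (w • x) = C.c (w • y)} =
        ⋂ w ∈ Ball S r, (fun y : X => w • y) ⁻¹' (C.c ⁻¹' {C.c (w • x)}) := by
      ext y
      simp only [Set.mem_ofPred_eq, Set.mem_iInter, Set.mem_preimage, Set.mem_singleton_iff]
      exact ⟨fun h w hw => (h w hw).symm, fun h w hw => (h w hw).symm⟩
    rw [e]
    exact (finite_Ball S hS r).isOpen_biInter (fun w _ =>
      ((C.clopen _).preimage (continuous_const_smul w)).isOpen)
  obtain ⟨u, v, huv⟩ := C.two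
  have hnot : ¬ ∀ w ∈ Ball S r, C.c (w • u) = C.c (w • v) := by
    intro h
    have := h 1 (one_mem_Ball S r)
    rw [one_smul, one_smul] at this
    exact huv this
  obtain ⟨g, hg⟩ := (hopen v).exists_smul_mem Γ u ⟨v, fun _ _ => rfl⟩
  rw [Set.mem_ofPred_eq] at hg
  have hug : ¬ ∀ w ∈ Ball S r, C.c (w • u) = C.c (w • (g • u)) := by
    intro h
    exact hnot (fun w hw => (h w hw).trans (hg w hw).symm)
  have hgu : g • u ≠ u := by
    intro h
    apply hug
    intro w _
    rw [h]
  obtain ⟨h, hh⟩ : ∃ h : Γ, h • u ≠ u ∧ g • u ≠ h • u := by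
    by_contra hc
    push Not at hc
    apply hinf u
    apply Set.Finite.subset (Set.toFinite ({u, g • u} : Set X))
    rintro _ ⟨h, rfl⟩
    by_cases e : h • u = u
    · left; exact e
    · right; exact (hc h e).symm
  obtain ⟨z, hz, hz'⟩ := ((noIsolated hinf _ (hopen u) ⟨u, fun _ _ => rfl⟩).sdiff
    (Set.toFinite ({u, g • u, h • u} : Set X))).nonempty
  simp only [Set.mem_insert_iff, Set.mem_singleton_iff, not_or] at hz'
  obtain ⟨U, hU, hxU, d1, d2, d3, z1, z2, z3⟩ := small_clopen u z g h hgu hh.1 hh.2 hz'.1 hz'.2.1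
    hz'.2.2
  obtain ⟨t, ht1, ht2⟩ := halt U g h hU d1 d2 d3
  obtain ⟨n, hn⟩ := exists_mem_Ball S hgen t
  have h1 := inv n t hn u z hz
  rw [(ht1 u hxU).1, ht2 z z1 z2 z3] at h1
  exact hug (fun w hw => (hz w hw).trans (h1 w hw).symm)

end Pool.Agent.Helper34.AG
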