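import Pool.Agent.Helper34.AG.CostStep
import Pool.Agent.Helper34.AG.CostBase
import Pool.Agent.Helper34.AG.Sep
import Pool.Agent.Helper34.AG.Count
import Pool.Agent.Helper34.AG.Lanes
import Pool.Agent.Helper34.AG.Reduce
import Pool.Agent.Helper34.AG.Analysis

/-!
# AG-13: assembly

`cost_pow`: induction on `j` with `cost_step` (`k = m + 2`).
`main_minimal`: `exists_k` gives `m`; `exists_coding` with `L = 2 m + 6`; `cost_base`, `cost_pow`,
`separation`, `count` with `K = k ^ j`, `l = (4 k)^j * l₀`; then `growth` with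
`f n = Nat.card (Ball S n)`, monotone by `Ball_mono` and finiteness (`Nat.card_mono`), `f 0 = 1`, `f 1 ≥ 2` since
`Γ` is nontrivial (the orbits are infinite): `S` contains an element `≠ 1`.
`main`: `reduce`, then `main_minimal` (`Infinite Y` from an infinite orbit).
-/

set_option autoImplicit false

open Pointwise

namespace Pool.Agent.Helper34.AG

universe u v

theorem cost_pow {Γ : Type u} [Group Γ] {X : Type v} [TopologicalSpace X] [MulAction Γ X]
    {L : ℕ} (C : Coding Γ X L) (S : Set Γ) (m l : ℕ) (hL : 2 * m + 6 ≤ L) (hC : Cost C S 1 l)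
    (j : ℕ) : Cost C S ((m + 2) ^ j) ((4 * (m + 2)) ^ j * l) := by
  induction j with
  | zero => simpa using hC
  | succ j ih =>
    have := cost_step C S _ _ m hL ih
    have e1 : (m + 2) ^ (j + 1) = (m + 2) * (m + 2) ^ j := by ring
    have e2 : (4 * (m + 2)) ^ (j + 1) * l = 4 * (m + 2) * ((4 * (m + 2)) ^ j * l) := by ring
    rw [e1, e2]
    exact this

theorem main_minimal (Γ : Type u) [Group Γ] (S : Set Γ) (hS : S.Finite)
    (hgen : Subgroup.closure S = ⊤) (X : Type v) [TopologicalSpace X] [MulAction Γ X]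
    [CompactSpace X] [T2Space X] [TotallyDisconnectedSpace X] [Nonempty X]
    [ContinuousConstSMul Γ X] [MulAction.IsMinimal Γ X]
    (hinf : ∀ x : X, (MulAction.orbit Γ x).Infinite) (halt : ContainsAlt Γ X)
    (α : ℝ) (h0 : 0 < α) (h1 : α < 1 / 2) :
    ∃ c : ℝ, 0 < c ∧ ∀ n : ℕ, Real.exp (c * (n : ℝ) ^ α) ≤ (Nat.card ↥(Ball S n) : ℝ) := by
  obtain ⟨m, hm⟩ := exists_k α h0 h1
  have hXinf : Infinite X := by
    obtain ⟨x⟩ := (inferInstance : Nonempty X)
    exact Set.infinite_univ_iff.1 ((hinf x).mono (Set.subset_univ _))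
  obtain ⟨C⟩ := exists_coding (Γ := Γ) (X := X) (2 * m + 6) (by omega)
  obtain ⟨l, hl, hbase⟩ := cost_base halt C S hS hgen
  have hcost := cost_pow C S m l le_rfl hbase
  have hsep := separation hinf halt C S hS hgen
  have hcount := fun j => count C (by omega) S hS ((m + 2) ^ j) ((4 * (m + 2)) ^ j * l)
    (hcost j) hsep
  have hfin : ∀ n, (Ball S n).Finite := finite_Ball S hS
  have hmono : Monotone (fun n => Nat.card ↥(Ball S n)) := by
    intro n n' h
    exact Nat.card_mono (hfin n') (Ball_mono S h)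
  have hone : 1 ≤ Nat.card ↥(Ball S 0) := by
    have : Nonempty ↥(Ball S 0) := ⟨⟨1, one_mem_Ball S 0⟩⟩
    have : Finite ↥(Ball S 0) := (hfin 0).to_subtype
    exact Nat.card_pos
  have htwo : 2 ≤ Nat.card ↥(Ball S 1) := by
    have hS1 : ∃ σ ∈ S, σ ≠ 1 := by
      by_contra hc
      push Not at hc
      obtain ⟨x⟩ := (inferInstance : Nonempty X)
      apply hinf x
      have hall : ∀ γ : Γ, γ = 1 := by
        intro γ
        have hγ : γ ∈ Subgroup.closure S := by rw [hgen]; trivial
        have hle : Subgroup.closure S ≤ ⊥ := by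
          rw [Subgroup.closure_le]
          intro σ hσ
          exact hc σ hσ
        exact hle hγ
      apply Set.Finite.subset (Set.finite_singleton x)
      rintro _ ⟨γ, rfl⟩
      simp [hall γ]
    obtain ⟨σ, hσ, hσ1⟩ := hS1
    have : Finite ↥(Ball S 1) := (hfin 1).to_subtype
    have hσB : σ ∈ Ball S 1 := by
      unfold Ball
      rw [pow_one]
      exact Or.inl (Or.inr hσ)
    have hnt : Nontrivial ↥(Ball S 1) :=
      ⟨⟨⟨σ, hσB⟩, ⟨1, one_mem_Ball S 1⟩, fun h => hσ1 (congrArg Subtype.val h)⟩⟩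
    exact Finite.one_lt_card
  have hcard : 1 ≤ @Fintype.card C.A C.fin := by
    obtain ⟨x, -, -⟩ := C.two
    exact @Fintype.card_pos _ C.fin ⟨C.c x⟩
  exact growth (fun n => Nat.card ↥(Ball S n)) hmono hone htwo (m + 2)
    (@Fintype.card C.A C.fin) l (by omega) hcard hl α h0 (by exact_mod_cast hm)
    (fun j => hcount j)

theorem main (Γ : Type u) [Group Γ] (S : Set Γ) (hS : S.Finite)
    (hgen : Subgroup.closure S = ⊤) (X : Type v) [TopologicalSpace X] [MulAction Γ X]
    [CompactSpace X] [T2Space X] [TotallyDisconnectedSpace X] [Nonempty X]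
    [ContinuousConstSMul Γ X] (hinf : ∀ x : X, (MulAction.orbit Γ x).Infinite)
    (halt : ContainsAlt Γ X) (α : ℝ) (h0 : 0 < α) (h1 : α < 1 / 2) :
    ∃ c : ℝ, 0 < c ∧ ∀ n : ℕ, Real.exp (c * (n : ℝ) ^ α) ≤ (Nat.card ↥(Ball S n) : ℝ) := by
  obtain ⟨Y, _, _, _, _, _, _, _, _, hinfY, haltY⟩ := reduce Γ X hinf halt
  exact main_minimal Γ S hS hgen Y hinfY haltY α h0 h1

end Pool.Agent.Helper34.AG
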