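import Pool.Agent.Helper34.AG.Words

/-!
# AG-02: the transport relation `Tr`

`tr_base`: `t` moves `C.g (a i) q1 • y` to `(C.g (a (i+n)) q * wd s i n) • y` (`mul_smul`). A point
`z` of the lane `q1` which is not of the form `C.g (a i) q1 • y` is also not of the two other forms
(they lie in the lanes `q`, `r`: `lane_start`, `lane_end`, `C.disj`), so `t` fixes it by the second
clause of `Cyc`. A point outside the three lanes is not of any of the three forms.

`tr_step`: let `N' = t⁻¹ * N * t`.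
 1. `y ∈ PV (i, n+m)`: by `mem_PV_add` `y ∈ PV (i,n)` and `w • y ∈ PV (i+n,m)`. `t` moves
    `C.g (a i) q1 • y` to `C.g (a (i+n)) q2 • (w • y)`, `N` moves this to the lane `q` at the end
    point (`lane_end`), and `t⁻¹` fixes it because `t` fixes all points of the lane `q`
    (`q ≠ q1, q2, r`, `fix_of_lane`). Use `wd_add`.
 2. `z` in the lane `q1`, not of the form `C.g (a i) q1 • y`, `y ∈ PV (i,n+m)`.
    If `z = C.g (a i) q1 • y` with `y ∈ PV (i,n)` then `w • y ∉ PV (i+n,m)`, so
    `t • z = C.g (a (i+n)) q2 • (w • y)` is in the lane `q2` and different from all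
    `C.g (a (i+n)) q2 • y'`, `y' ∈ PV (i+n,m)` (cancel `C.g ..`), `N` fixes it, and `t⁻¹` brings it
    back to `z`. Otherwise `t • z = z`, and `z` is in no lane of `F` (`q1 ∉ F`), so `N • z = z`.
 3. `z` outside all lanes of `insert q1 (insert r F)` (note `q2 ∈ F`): `t` and `N` fix it.
-/

set_option autoImplicit false

open Pointwise

namespace Pool.Agent.Helper34.AG

universe u v

variable {Γ : Type u} [Group Γ] {X : Type v} [TopologicalSpace X] [MulAction Γ X] {L : ℕ}

theorem lane_ne (C : Coding Γ X L) {p q : Fin L} (h : p ≠ q) {z z' : X} (hz : z ∈ C.lane p)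
    (hz' : z' ∈ C.lane q) : z ≠ z' := by
  rintro rfl
  exact Set.disjoint_left.1 (C.disj p q h) hz hz'

/-- `J` fixes every point outside the three lanes. -/
theorem fix_of_lane (C : Coding Γ X L) (t : Γ) (s : ℕ → Γ) (a : ℕ → C.A) (i n : ℕ)
    (p q r : Fin L) (h : J C t s a i n p q r) (z : X) (h1 : z ∉ C.lane p) (h2 : z ∉ C.lane q)
    (h3 : z ∉ C.lane r) : t • z = z := by
  refine h.2 z (fun x hx => ⟨?_, ?_, ?_⟩)
  · rintro rfl; exact h1 (lane_start C s a i n x hx p)
  · rintro rfl; rw [mul_smul] at h2; exact h2 (lane_end C s a i n x hx q)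
  · rintro rfl; exact h3 (lane_start C s a i n x hx r)

theorem inv_fix {t : Γ} {z : X} (h : t • z = z) : t⁻¹ • z = z := by
  rw [inv_smul_eq_iff, h]

theorem tr_base (C : Coding Γ X L) (t : Γ) (s : ℕ → Γ) (a : ℕ → C.A) (i n : ℕ)
    (q1 q r : Fin L) (h1 : q1 ≠ q) (h2 : q1 ≠ r) (h3 : q ≠ r) (h : J C t s a i n q1 q r) :
    Tr C t s a i n q1 q {q1, q, r} := by
  refine ⟨fun y hy => ?_, fun z hz hz' => ?_, fun z hz => ?_⟩
  · rw [(h.1 y hy).1, mul_smul]
  · refine h.2 z (fun x hx => ⟨hz' x hx, ?_, ?_⟩)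
    · rw [mul_smul]
      exact lane_ne C h1 hz (lane_end C s a i n x hx q)
    · exact lane_ne C h2 hz (lane_start C s a i n x hx r)
  · exact fix_of_lane C t s a i n q1 q r h z (hz q1 (by simp)) (hz q (by simp)) (hz r (by simp))

theorem tr_step (C : Coding Γ X L) (t N : Γ) (s : ℕ → Γ) (a : ℕ → C.A) (i n m : ℕ)
    (q1 q2 q r : Fin L) (F : Finset (Fin L)) (h12 : q1 ≠ q2) (h1r : q1 ≠ r) (h2r : q2 ≠ r)
    (hq1 : q ≠ q1) (hq2 : q ≠ q2) (hqr : q ≠ r) (hF1 : q1 ∉ F) (hFr : r ∉ F) (hF2 : q2 ∈ F)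
    (ht : J C t s a i n q1 q2 r) (hN : Tr C N s a (i + n) m q2 q F) :
    Tr C (t⁻¹ * N * t) s a i (n + m) q1 q (insert q1 (insert r F)) := by
  obtain ⟨hN1, hN2, hN3⟩ := hN
  refine ⟨fun y hy => ?_, fun z hz hz' => ?_, fun z hz => ?_⟩
  · obtain ⟨hy1, hy2⟩ := (mem_PV_add C s a i n m y).1 hy
    rw [mul_smul, mul_smul, (ht.1 y hy1).1, mul_smul, hN1 _ hy2, wd_add, mul_smul,
      ← Nat.add_assoc]
    have hl : C.g (a (i + n + m)) q • wd s (i + n) m • wd s i n • y ∈ C.lane q :=
      lane_end C s a (i + n) m _ hy2 q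
    refine inv_fix (fix_of_lane C t s a i n q1 q2 r ht _ ?_ ?_ ?_)
    · intro h; exact lane_ne C hq1 hl h rfl
    · intro h; exact lane_ne C hq2 hl h rfl
    · intro h; exact lane_ne C hqr hl h rfl
  · by_cases hex : ∃ y ∈ PV C s a i n, z = C.g (a i) q1 • y
    · obtain ⟨y, hy, rfl⟩ := hex
      have hwy : wd s i n • y ∉ PV C s a (i + n) m := by
        intro hmem
        exact hz' y ((mem_PV_add C s a i n m y).2 ⟨hy, hmem⟩) rfl
      have hfix : N • (C.g (a (i + n)) q2 • wd s i n • y) =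
          C.g (a (i + n)) q2 • wd s i n • y := by
        refine hN2 _ (lane_end C s a i n y hy q2) (fun y' hy' he => ?_)
        rw [smul_left_cancel_iff] at he
        rw [he] at hwy
        exact hwy hy'
      rw [mul_smul, mul_smul, (ht.1 y hy).1, mul_smul, hfix, inv_smul_eq_iff,
        (ht.1 y hy).1, mul_smul]
    · push Not at hex
      have h1 : t • z = z := by
        refine ht.2 z (fun x hx => ⟨hex x hx, ?_, ?_⟩)
        · rw [mul_smul]
          exact lane_ne C h12 hz (lane_end C s a i n x hx q2)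
        · exact lane_ne C h1r hz (lane_start C s a i n x hx r)
      have h2 : N • z = z := by
        refine hN3 z (fun l hl hzl => ?_)
        have : q1 ≠ l := by rintro rfl; exact hF1 hl
        exact lane_ne C this hz hzl rfl
      rw [mul_smul, mul_smul, h1, h2, inv_fix h1]
  · have h1 : t • z = z := fix_of_lane C t s a i n q1 q2 r ht z (hz q1 (by simp))
      (hz q2 (by simp [hF2])) (hz r (by simp))
    have h2 : N • z = z := hN3 z (fun l hl => hz l (by simp [hl]))
    rw [mul_smul, mul_smul, h1, h2, inv_fix h1]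

end Pool.Agent.Helper34.AG
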