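import Pool.Agent.Helper34.AG.Defs

/-!
# AG-01: words and path cylinders
-/

set_option autoImplicit false

open Pointwise

namespace Pool.Agent.Helper34.AG

universe u v

variable {Γ : Type u} [Group Γ] {X : Type v} [TopologicalSpace X] [MulAction Γ X] {L : ℕ}

theorem wd_add (s : ℕ → Γ) (i n m : ℕ) : wd s i (n + m) = wd s (i + n) m * wd s i n := by
  induction m with
  | zero => simp [wd]
  | succ m ih =>
    rw [← Nat.add_assoc, wd, wd, ih, mul_assoc, Nat.add_assoc]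

theorem mem_PV_add (C : Coding Γ X L) (s : ℕ → Γ) (a : ℕ → C.A) (i n m : ℕ) (x : X) :
    x ∈ PV C s a i (n + m) ↔ x ∈ PV C s a i n ∧ wd s i n • x ∈ PV C s a (i + n) m := by
  constructor
  · intro h
    refine ⟨fun j hj => h j (by omega), fun j hj => ?_⟩
    have := h (n + j) (by omega)
    rw [wd_add, mul_smul, ← Nat.add_assoc] at this
    exact this
  · rintro ⟨h1, h2⟩ j hj
    by_cases hjn : j ≤ n
    · exact h1 j hjn
    · obtain ⟨k, rfl⟩ : ∃ k, j = n + k := ⟨j - n, by omega⟩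
      rw [wd_add, mul_smul, ← Nat.add_assoc]
      exact h2 k (by omega)

theorem col_start (C : Coding Γ X L) (s : ℕ → Γ) (a : ℕ → C.A) (i n : ℕ) (x : X)
    (hx : x ∈ PV C s a i n) : C.c x = a i := by
  simpa [wd] using hx 0 (Nat.zero_le n)

theorem col_end (C : Coding Γ X L) (s : ℕ → Γ) (a : ℕ → C.A) (i n : ℕ) (x : X)
    (hx : x ∈ PV C s a i n) : C.c (wd s i n • x) = a (i + n) := hx n le_rfl

theorem lane_start (C : Coding Γ X L) (s : ℕ → Γ) (a : ℕ → C.A) (i n : ℕ) (x : X)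
    (hx : x ∈ PV C s a i n) (p : Fin L) : C.g (a i) p • x ∈ C.lane p := by
  rw [← col_start C s a i n x hx]
  exact C.mem x p

theorem lane_end (C : Coding Γ X L) (s : ℕ → Γ) (a : ℕ → C.A) (i n : ℕ) (x : X)
    (hx : x ∈ PV C s a i n) (p : Fin L) : C.g (a (i + n)) p • (wd s i n • x) ∈ C.lane p := by
  rw [← col_end C s a i n x hx]
  exact C.mem _ p

theorem isClopen_PV [ContinuousConstSMul Γ X] (C : Coding Γ X L) (s : ℕ → Γ) (a : ℕ → C.A)
    (i n : ℕ) : IsClopen (PV C s a i n) := by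
  have h : PV C s a i n = ⋂ j ∈ Finset.range (n + 1),
      (fun x : X => wd s i j • x) ⁻¹' (C.c ⁻¹' {a (i + j)}) := by
    ext x
    simp [PV]
  rw [h]
  refine isClopen_biInter_finset (fun j _ => ?_)
  exact (C.clopen (a (i + j))).preimage (continuous_const_smul _)

theorem one_mem_T (S : Set Γ) : (1 : Γ) ∈ (({1} : Set Γ) ∪ S ∪ S⁻¹) := by simp

theorem T_inv (S : Set Γ) : (({1} : Set Γ) ∪ S ∪ S⁻¹)⁻¹ = (({1} : Set Γ) ∪ S ∪ S⁻¹) := by
  ext x
  simp only [Set.mem_inv, Set.mem_union, Set.mem_singleton_iff, inv_eq_one, inv_inv]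
  tauto

theorem one_mem_Ball (S : Set Γ) (n : ℕ) : (1 : Γ) ∈ Ball S n := by
  unfold Ball
  have := Set.pow_mem_pow (one_mem_T S) (n := n)
  simpa using this

theorem Ball_mono (S : Set Γ) {m n : ℕ} (h : m ≤ n) : Ball S m ⊆ Ball S n :=
  Set.pow_subset_pow_right (one_mem_T S) h

theorem mul_mem_Ball (S : Set Γ) {m n : ℕ} {x y : Γ} (hx : x ∈ Ball S m) (hy : y ∈ Ball S n) :
    x * y ∈ Ball S (m + n) := by
  unfold Ball at *
  rw [pow_add]
  exact Set.mul_mem_mul hx hy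

theorem inv_mem_Ball (S : Set Γ) {n : ℕ} {x : Γ} (hx : x ∈ Ball S n) : x⁻¹ ∈ Ball S n := by
  unfold Ball at *
  rw [← T_inv S, inv_pow]
  exact Set.inv_mem_inv.2 hx

theorem mem_Ball_succ (S : Set Γ) (n : ℕ) (x : Γ) :
    x ∈ Ball S (n + 1) ↔ ∃ y ∈ Ball S n, ∃ σ ∈ Ball S 1, x = y * σ := by
  unfold Ball
  rw [pow_succ, pow_one, Set.mem_mul]
  constructor
  · rintro ⟨y, hy, σ, hσ, rfl⟩; exact ⟨y, hy, σ, hσ, rfl⟩
  · rintro ⟨y, hy, σ, hσ, rfl⟩; exact ⟨y, hy, σ, hσ, rfl⟩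

theorem mem_Ball_succ' (S : Set Γ) (n : ℕ) (x : Γ) :
    x ∈ Ball S (n + 1) ↔ ∃ σ ∈ Ball S 1, ∃ y ∈ Ball S n, x = σ * y := by
  unfold Ball
  rw [pow_succ', pow_one, Set.mem_mul]
  constructor
  · rintro ⟨y, hy, σ, hσ, rfl⟩; exact ⟨y, hy, σ, hσ, rfl⟩
  · rintro ⟨y, hy, σ, hσ, rfl⟩; exact ⟨y, hy, σ, hσ, rfl⟩

theorem finite_Ball (S : Set Γ) (hS : S.Finite) (n : ℕ) : (Ball S n).Finite := by
  unfold Ball
  have h1 : ((({1} : Set Γ) ∪ S ∪ S⁻¹)).Finite := ((Set.finite_singleton 1).union hS).union hS.inv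
  induction n with
  | zero => rw [pow_zero]; exact Set.finite_one
  | succ n ih => rw [pow_succ]; exact ih.mul h1

theorem exists_mem_Ball (S : Set Γ) (hS : Subgroup.closure S = ⊤) (x : Γ) :
    ∃ n, x ∈ Ball S n := by
  have hx : x ∈ Subgroup.closure S := by rw [hS]; trivial
  induction hx using Subgroup.closure_induction with
  | mem x hx =>
    refine ⟨1, ?_⟩
    unfold Ball
    rw [pow_one]
    exact Or.inl (Or.inr hx)
  | one => exact ⟨0, one_mem_Ball S 0⟩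
  | mul x y _ _ hx hy =>
    obtain ⟨m, hm⟩ := hx
    obtain ⟨n, hn⟩ := hy
    exact ⟨m + n, mul_mem_Ball S hm hn⟩
  | inv x _ hx =>
    obtain ⟨m, hm⟩ := hx
    exact ⟨m, inv_mem_Ball S hm⟩

end Pool.Agent.Helper34.AG
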